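import Mathlib

/-!
# Free values of a quadratic map

`B : E × E → V` symmetric bilinear with relatively compact image of the unit ball, `F : V → ℝ`
continuous with `F (B x x) = ‖x‖ ^ 2`. `Cone B` is the set of limits of `B y y` along weakly null
ultrafilters.
-/

set_option autoImplicit false
set_option linter.unusedSectionVars false

namespace Pool.TH578.Quad

open Filter Topology

variable {E : Type*} [NormedAddCommGroup E] [NormedSpace ℝ E]
  {V : Type*} [NormedAddCommGroup V] [InnerProductSpace ℝ V]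

/-- the standing assumptions -/
structure Data (B : E →L[ℝ] E →L[ℝ] V) (F : V → ℝ) : Prop where
  symm : ∀ x y, B x y = B y x
  cont : Continuous F
  norm : ∀ x, F (B x x) = ‖x‖ ^ 2
  comp : ∃ K : Set V, IsCompact K ∧ ∀ x y, ‖x‖ ≤ 1 → ‖y‖ ≤ 1 → B x y ∈ K

/-- `y` is weakly null and `B y y` tends to `c` -/
structure Ty (B : E →L[ℝ] E →L[ℝ] V) {ι : Type*} (u : Filter ι) (y : ι → E) (c : V) : Prop where
  weak : ∀ f : StrongDual ℝ E, Tendsto (fun i => f (y i)) u (𝓝 0)
  quad : Tendsto (fun i => B (y i) (y i)) u (𝓝 c)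

/-- limits of `B y y` along weakly null ultrafilters -/
def Cone (B : E →L[ℝ] E →L[ℝ] V) : Set V :=
  {c | ∃ 𝓤 : Ultrafilter E, Ty B (𝓤 : Filter E) (fun y => y) c}

variable {B : E →L[ℝ] E →L[ℝ] V} {F : V → ℝ}

lemma quad_add (h : Data B F) (x y : E) :
    B (x + y) (x + y) = B x x + B y y + (2 : ℝ) • B x y := by
  simp only [map_add, add_apply]
  rw [h.symm y x, two_smul]; abel

lemma quad_sub (h : Data B F) (x y : E) :
    B (x - y) (x - y) = B x x + B y y - (2 : ℝ) • B x y := by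
  simp only [map_sub, sub_apply]
  rw [h.symm y x, two_smul]; abel

lemma quad_smul (t : ℝ) (x : E) : B (t • x) (t • x) = (t ^ 2) • B x x := by
  simp only [map_smul, smul_apply]
  rw [smul_smul, sq]

lemma quad_bound (x y : E) : ‖B x y‖ ≤ ‖B‖ * ‖x‖ * ‖y‖ := B.le_opNorm₂ x y

/-- compactness on arbitrary balls -/
lemma comp_ball (h : Data B F) (R : ℝ) :
    ∃ K : Set V, IsCompact K ∧ ∀ x y, ‖x‖ ≤ R → ‖y‖ ≤ R → B x y ∈ K := by
  obtain ⟨K, hK, hK2⟩ := h.comp
  set r : ℝ := max R 1 with hr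
  have hr0 : 0 < r := lt_of_lt_of_le one_pos (le_max_right _ _)
  refine ⟨(fun v => (r ^ 2) • v) '' K, hK.image (continuous_const_smul _), fun x y hx hy => ?_⟩
  refine ⟨B (r⁻¹ • x) (r⁻¹ • y), hK2 _ _ ?_ ?_, ?_⟩
  · rw [norm_smul, norm_inv, Real.norm_eq_abs, abs_of_pos hr0, inv_mul_le_iff₀ hr0, mul_one]
    exact hx.trans (le_max_left _ _)
  · rw [norm_smul, norm_inv, Real.norm_eq_abs, abs_of_pos hr0, inv_mul_le_iff₀ hr0, mul_one]
    exact hy.trans (le_max_left _ _)
  · simp only [map_smul, smul_apply]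
    rw [smul_smul, smul_smul]
    have : r ^ 2 * r⁻¹ * r⁻¹ = 1 := by field_simp
    rw [this, one_smul]

/-- limits along ultrafilters -/
lemma ultra_lim (h : Data B F) {ι : Type*} (u : Ultrafilter ι) (x y : ι → E) {R : ℝ}
    (hx : ∀ᶠ i in (u : Filter ι), ‖x i‖ ≤ R) (hy : ∀ᶠ i in (u : Filter ι), ‖y i‖ ≤ R) :
    ∃ v, Tendsto (fun i => B (x i) (y i)) (u : Filter ι) (𝓝 v) := by
  obtain ⟨K, hK, hK2⟩ := comp_ball h R
  have h1 : ∀ᶠ i in (u : Filter ι), B (x i) (y i) ∈ K := by
    filter_upwards [hx, hy] with i h1 h2 using hK2 _ _ h1 h2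
  have h2 : ((u.map (fun i => B (x i) (y i)) : Ultrafilter V) : Filter V) ≤ 𝓟 K := by
    rw [le_principal_iff]
    exact h1
  obtain ⟨v, -, hv⟩ := hK.ultrafilter_le_nhds _ h2
  exact ⟨v, hv⟩

lemma cross_null (h : Data B F) {ι : Type*} {u : Filter ι} {y : ι → E} {R : ℝ}
    (hw : ∀ f : StrongDual ℝ E, Tendsto (fun i => f (y i)) u (𝓝 0))
    (hy : ∀ᶠ i in u, ‖y i‖ ≤ R) (x : E) : Tendsto (fun i => B x (y i)) u (𝓝 0) := by
  rw [tendsto_iff_ultrafilter]
  intro g hg
  set R' := max R ‖x‖ with hR'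
  obtain ⟨v, hv⟩ := ultra_lim h g (fun _ => x) y (R := R')
    (Eventually.of_forall fun _ => le_max_right _ _)
    ((hy.filter_mono hg).mono fun i hi => hi.trans (le_max_left _ _))
  have hv0 : v = 0 := by
    have h1 : inner ℝ v v = 0 := by
      have h2 : Tendsto (fun i => inner ℝ v (B x (y i))) (g : Filter ι) (𝓝 (inner ℝ v v)) :=
        (tendsto_const_nhds.inner hv)
      have h3 : Tendsto (fun i => ((innerSL ℝ v).comp (B x)) (y i)) (g : Filter ι) (𝓝 0) :=
        (hw _).mono_left hg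
      exact tendsto_nhds_unique h2 h3
    exact inner_self_eq_zero.1 h1
  rw [hv0] at hv
  exact hv

namespace Ty

variable {ι : Type*} {u : Filter ι} {y : ι → E} {c : V}

lemma normSq (h : Data B F) (t : Ty B u y c) : Tendsto (fun i => ‖y i‖ ^ 2) u (𝓝 (F c)) := by
  have := (h.cont.tendsto c).comp t.quad
  refine this.congr fun i => ?_
  exact h.norm (y i)

lemma bdd (h : Data B F) (t : Ty B u y c) : ∀ᶠ i in u, ‖y i‖ ≤ Real.sqrt (F c + 1) := by
  have := (t.normSq h).eventually (gt_mem_nhds (lt_add_one (F c)))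
  filter_upwards [this] with i hi
  exact Real.le_sqrt_of_sq_le hi.le

lemma cross (h : Data B F) (t : Ty B u y c) (x : E) : Tendsto (fun i => B x (y i)) u (𝓝 0) :=
  cross_null h t.weak (t.bdd h) x

lemma quad_shift (h : Data B F) (t : Ty B u y c) (x : E) :
    Tendsto (fun i => B (x + y i) (x + y i)) u (𝓝 (B x x + c)) := by
  have h1 : Tendsto (fun i => B x x + B (y i) (y i) + (2 : ℝ) • B x (y i)) u
      (𝓝 (B x x + c + (2 : ℝ) • (0 : V))) :=
    (tendsto_const_nhds.add t.quad).add ((t.cross h x).const_smul 2)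
  rw [smul_zero, add_zero] at h1
  exact h1.congr fun i => (quad_add h x (y i)).symm

lemma norm_shift (h : Data B F) (t : Ty B u y c) (x : E) :
    Tendsto (fun i => ‖x + y i‖ ^ 2) u (𝓝 (F (B x x + c))) := by
  have := (h.cont.tendsto _).comp (t.quad_shift h x)
  exact this.congr fun i => h.norm _

lemma mem_cone [NeBot u] (t : Ty B u y c) : c ∈ Cone B := by
  let g : Ultrafilter ι := Ultrafilter.of u
  have hg : (g : Filter ι) ≤ u := Ultrafilter.of_le u
  refine ⟨g.map y, ⟨fun f => ?_, ?_⟩⟩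
  · rw [Ultrafilter.coe_map, tendsto_map'_iff]
    exact (t.weak f).mono_left hg
  · rw [Ultrafilter.coe_map, tendsto_map'_iff]
    exact t.quad.mono_left hg

end Ty

lemma tendsto_curry {α β W : Type*} [PseudoMetricSpace W] {u : Filter α} {v : Filter β}
    {f : α → β → W} {g : α → W} {l : W} (h1 : ∀ a, Tendsto (f a) v (𝓝 (g a)))
    (h2 : Tendsto g u (𝓝 l)) :
    Tendsto (fun p : α × β => f p.1 p.2) (u.curry v) (𝓝 l) := by
  rw [Metric.tendsto_nhds]
  intro ε hε
  rw [Filter.eventually_curry_iff]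
  have h3 := (Metric.tendsto_nhds.1 h2) (ε / 2) (by positivity)
  filter_upwards [h3] with a ha
  have h4 := (Metric.tendsto_nhds.1 (h1 a)) (ε / 2) (by positivity)
  filter_upwards [h4] with b hb
  calc dist (f a b) l ≤ dist (f a b) (g a) + dist (g a) l := dist_triangle _ _ _
    _ < ε := by linarith

lemma curry_neBot {α β : Type*} (u : Filter α) (v : Filter β) [NeBot u] [NeBot v] :
    NeBot (u.curry v) := by
  rw [neBot_iff]
  intro h
  have h1 : ∀ᶠ p : α × β in u.curry v, False := by rw [h]; exact eventually_bot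
  rw [Filter.eventually_curry_iff] at h1
  obtain ⟨a, ha⟩ := h1.exists
  obtain ⟨b, hb⟩ := ha.exists
  exact hb

lemma Ty.curry (h : Data B F) {ι κ : Type*} {u : Filter ι} {v : Filter κ} {y : ι → E}
    {z : κ → E} {c d : V} (hc : Ty B u y c) (hd : Ty B v z d) :
    Ty B (u.curry v) (fun p => y p.1 + z p.2) (c + d) := by
  refine ⟨fun f => ?_, ?_⟩
  · have := tendsto_curry (f := fun i j => f (y i) + f (z j)) (g := fun i => f (y i) + 0)
      (u := u) (v := v) (l := 0 + 0) (fun a => tendsto_const_nhds.add (hd.weak f))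
      ((hc.weak f).add tendsto_const_nhds)
    rw [add_zero] at this
    exact this.congr fun p => (map_add f _ _).symm
  · exact tendsto_curry (f := fun i j => B (y i + z j) (y i + z j))
      (g := fun i => B (y i) (y i) + d) (fun a => hd.quad_shift h (y a))
      (hc.quad.add tendsto_const_nhds)

lemma cone_add (h : Data B F) {c d : V} (hc : c ∈ Cone B) (hd : d ∈ Cone B) :
    c + d ∈ Cone B := by
  obtain ⟨u, hu⟩ := hc
  obtain ⟨v, hv⟩ := hd
  have := curry_neBot (u : Filter E) (v : Filter E)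
  exact (hu.curry h hv).mem_cone

lemma cone_smul {c : V} (hc : c ∈ Cone B) {t : ℝ} (ht : 0 ≤ t) : t • c ∈ Cone B := by
  obtain ⟨u, hu⟩ := hc
  have : Ty B (u : Filter E) (fun y => Real.sqrt t • y) (t • c) := by
    refine ⟨fun f => ?_, ?_⟩
    · have := (hu.weak f).const_mul (Real.sqrt t)
      rw [mul_zero] at this
      exact this.congr fun y => by simp
    · have := hu.quad.const_smul t
      refine this.congr fun y => ?_
      rw [quad_smul, Real.sq_sqrt ht]
  exact this.mem_cone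

lemma cone_zero : (0 : V) ∈ Cone B := by
  have : Ty B (pure (0 : E) : Filter E) (fun y => y) (0 : V) := by
    refine ⟨fun f => ?_, ?_⟩
    · rw [tendsto_pure_left]
      intro s hs
      simpa using mem_of_mem_nhds hs
    · rw [tendsto_pure_left]
      intro s hs
      simpa using mem_of_mem_nhds hs
  exact this.mem_cone

/-- description of the cone by finitely many functionals -/
lemma mem_cone_of_approx {c : V}
    (hc : ∀ (Φ : Finset (StrongDual ℝ E)) (ε : ℝ), 0 < ε →
      ∃ y : E, (∀ f ∈ Φ, |f y| ≤ ε) ∧ ‖B y y - c‖ ≤ ε) : c ∈ Cone B := by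
  classical
  have hpos : ∀ n : ℕ, (0 : ℝ) < 1 / ((n : ℝ) + 1) := fun n => by positivity
  choose! y hy1 hy2 using fun p : Finset (StrongDual ℝ E) × ℕ => hc p.1 (1 / ((p.2 : ℝ) + 1)) (hpos p.2)
  have hlim : Tendsto (fun p : Finset (StrongDual ℝ E) × ℕ => (1 / ((p.2 : ℝ) + 1)))
      atTop (𝓝 0) := by
    have h1 : Tendsto (fun p : Finset (StrongDual ℝ E) × ℕ => p.2) atTop atTop := by
      rw [← prod_atTop_atTop_eq]
      exact tendsto_snd
    exact tendsto_one_div_add_atTop_nhds_zero_nat.comp h1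
  have : Ty B (atTop : Filter (Finset (StrongDual ℝ E) × ℕ)) y c := by
    refine ⟨fun f => ?_, ?_⟩
    · refine squeeze_zero_norm' ?_ hlim
      filter_upwards [eventually_ge_atTop (({f} : Finset (StrongDual ℝ E)), 0)] with p hp
      exact hy1 p f (hp.1 (Finset.mem_singleton_self f))
    · rw [tendsto_iff_norm_sub_tendsto_zero]
      refine squeeze_zero (fun _ => norm_nonneg _) (fun p => hy2 p) hlim
  exact this.mem_cone

lemma cone_closed : IsClosed (Cone B) := by
  rw [← closure_subset_iff_isClosed]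
  intro c hc
  refine mem_cone_of_approx fun Φ ε hε => ?_
  obtain ⟨c', hc', hcc⟩ := Metric.mem_closure_iff.1 hc (ε / 2) (by positivity)
  obtain ⟨u, hu⟩ := hc'
  have h1 : ∀ᶠ y in (u : Filter E), ∀ f ∈ Φ, |f y| ≤ ε := by
    rw [Filter.eventually_all_finset]
    intro f hf
    have := (hu.weak f).norm
    rw [norm_zero] at this
    exact (this.eventually (gt_mem_nhds hε)).mono fun y hy => hy.le
  have h2 : ∀ᶠ y in (u : Filter E), ‖B y y - c'‖ < ε / 2 :=
    (tendsto_iff_norm_sub_tendsto_zero.1 hu.quad).eventually (gt_mem_nhds (by positivity))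
  obtain ⟨y, hy1, hy2⟩ := (h1.and h2).exists
  refine ⟨y, hy1, ?_⟩
  rw [dist_comm, dist_eq_norm] at hcc
  calc ‖B y y - c‖ = ‖(B y y - c') + (c' - c)‖ := by congr 1; abel
    _ ≤ ‖B y y - c'‖ + ‖c' - c‖ := norm_add_le _ _
    _ ≤ ε := by linarith

/-! ### The function `F` -/

lemma F_zero (h : Data B F) : F 0 = 0 := by
  have := h.norm 0
  simpa using this

lemma F_nonneg (h : Data B F) {c : V} (hc : c ∈ Cone B) : 0 ≤ F c := by
  obtain ⟨u, hu⟩ := hc
  exact ge_of_tendsto' (hu.normSq h) fun y => sq_nonneg _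

lemma norm_le (h : Data B F) {c : V} (hc : c ∈ Cone B) : ‖c‖ ≤ ‖B‖ * F c := by
  obtain ⟨u, hu⟩ := hc
  refine le_of_tendsto_of_tendsto' hu.quad.norm ((hu.normSq h).const_mul ‖B‖) fun y => ?_
  have := quad_bound (B := B) y y
  calc ‖B y y‖ ≤ ‖B‖ * ‖y‖ * ‖y‖ := this
    _ = ‖B‖ * ‖y‖ ^ 2 := by ring

lemma F_smul_shift (h : Data B F) {c : V} (hc : c ∈ Cone B) (x : E) {t : ℝ} (ht : 0 ≤ t) :
    F (t • (B x x + c)) = t * F (B x x + c) := by
  obtain ⟨u, hu⟩ := hc
  have h1 := (h.cont.tendsto _).comp ((hu.quad_shift h x).const_smul t)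
  have h2 := (hu.norm_shift h x).const_mul t
  refine tendsto_nhds_unique h1 (h2.congr fun y => ?_)
  show t * ‖x + y‖ ^ 2 = F (t • B (x + y) (x + y))
  have h3 := h.norm (Real.sqrt t • (x + y))
  rw [quad_smul, Real.sq_sqrt ht] at h3
  rw [h3, norm_smul, mul_pow, Real.norm_eq_abs, sq_abs, Real.sq_sqrt ht]

lemma F_smul (h : Data B F) {c : V} (hc : c ∈ Cone B) {t : ℝ} (ht : 0 ≤ t) :
    F (t • c) = t * F c := by
  have := F_smul_shift h hc 0 ht
  simpa using this

lemma eq_zero_of_F (h : Data B F) {c : V} (hc : c ∈ Cone B) (h0 : F c = 0) : c = 0 := by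
  have := norm_le h hc
  rw [h0, mul_zero] at this
  exact norm_le_zero_iff.1 this

/-- the cone is pointed -/
lemma pointed (h : Data B F) {c : V} (hc : c ∈ Cone B) (hc' : -c ∈ Cone B) : c = 0 := by
  obtain ⟨u, hu⟩ := hc
  obtain ⟨v, hv⟩ := hc'
  have h1 := hu.curry h hv
  have hv' : Ty B (v : Filter E) (fun y => -y) (-c) := by
    refine ⟨fun f => ?_, ?_⟩
    · have := (hv.weak f).neg
      rw [neg_zero] at this
      exact this.congr fun y => by simp
    · exact hv.quad.congr fun y => by simp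
  have h2 := hu.curry h hv'
  rw [add_neg_cancel] at h1 h2
  have hne := curry_neBot (u : Filter E) (v : Filter E)
  have h3 := h1.normSq h
  have h4 := h2.normSq h
  rw [F_zero h] at h3 h4
  have h5 : Tendsto (fun p : E × E => ‖p.1‖ ^ 2) ((u : Filter E).curry (v : Filter E)) (𝓝 0) := by
    have h6 : Tendsto (fun p : E × E => ‖p.1 + p.2‖ ^ 2 + ‖p.1 + -p.2‖ ^ 2)
        ((u : Filter E).curry (v : Filter E)) (𝓝 (0 + 0)) := h3.add h4
    rw [add_zero] at h6
    refine squeeze_zero (fun _ => sq_nonneg _) (fun p => ?_) h6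
    have h7 : ‖p.1‖ ≤ (‖p.1 + p.2‖ + ‖p.1 + -p.2‖) / 2 := by
      have h8 : (2 : ℝ) • p.1 = (p.1 + p.2) + (p.1 + -p.2) := by rw [two_smul]; abel
      have h9 : ‖(2 : ℝ) • p.1‖ ≤ ‖p.1 + p.2‖ + ‖p.1 + -p.2‖ := by rw [h8]; exact norm_add_le _ _
      rw [norm_smul, Real.norm_eq_abs, abs_of_pos (by norm_num : (0:ℝ) < 2)] at h9
      linarith
    nlinarith [norm_nonneg p.1, sq_nonneg (‖p.1 + p.2‖ - ‖p.1 + -p.2‖),
      norm_nonneg (p.1 + p.2), norm_nonneg (p.1 + -p.2)]
  have h6 : Tendsto (fun p : E × E => ‖p.1‖ ^ 2) ((u : Filter E).curry (v : Filter E))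
      (𝓝 (F c)) := by
    exact tendsto_curry (f := fun (a b : E) => ‖a‖ ^ 2) (g := fun a => ‖a‖ ^ 2)
      (fun a => tendsto_const_nhds) (hu.normSq h)
  exact eq_zero_of_F h ⟨u, hu⟩ (tendsto_nhds_unique h6 h5)

end Pool.TH578.Quad
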