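import Pool.Agent.TH578.Quad.Reduce

/-!
# The norm as a continuous function of the vector-valued quadratic map
-/

set_option autoImplicit false
set_option linter.unusedSectionVars false

namespace Pool.TH578.Quad

open Filter Topology

variable {E : Type*} [NormedAddCommGroup E] [NormedSpace ℝ E]
  {V : Type*} [NormedAddCommGroup V] [InnerProductSpace ℝ V]

/-- the norm is uniformly determined on the ball by the forms `β i x x` -/
def Det (β : ℕ → (E →L[ℝ] E →L[ℝ] ℝ)) : Prop :=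
  ∀ ε : ℝ, 0 < ε → ∃ (N : ℕ) (δ : ℝ), 0 < δ ∧ ∀ x y : E, ‖x‖ ≤ 1 → ‖y‖ ≤ 1 →
    (∀ i < N, |β i x x - β i y y| ≤ δ) → |‖x‖ - ‖y‖| ≤ ε

lemma exists_lower (g : ℕ → ℝ) (hg : ∀ n, 0 < g n) (N : ℕ) : ∃ m : ℝ, 0 < m ∧ ∀ i < N, m ≤ g i := by
  induction N with
  | zero => exact ⟨1, one_pos, fun i hi => absurd hi (Nat.not_lt_zero i)⟩
  | succ N ih =>
    obtain ⟨m, hm, h⟩ := ih
    refine ⟨min m (g N), lt_min hm (hg N), fun i hi => ?_⟩
    rcases Nat.lt_succ_iff_lt_or_eq.1 hi with h1 | h1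
    · exact (min_le_left _ _).trans (h i h1)
    · rw [h1]; exact min_le_right _ _

variable {β : ℕ → (E →L[ℝ] E →L[ℝ] ℝ)} [CompleteSpace V] {e : ℕ → V}

lemma ball_mod (hβ : Det β) (he : Orthonormal ℝ e) {ε : ℝ} (hε : 0 < ε) :
    ∃ δ : ℝ, 0 < δ ∧ ∀ x y : E, ‖x‖ ≤ 1 → ‖y‖ ≤ 1 →
      ‖bil β he x x - bil β he y y‖ ≤ δ → |‖x‖ - ‖y‖| ≤ ε := by
  obtain ⟨N, δ0, hδ0, h⟩ := hβ ε hε
  obtain ⟨m, hm, hmN⟩ := exists_lower (om β) (om_pos β) N
  refine ⟨δ0 * m, by positivity, fun x y hx hy hxy => h x y hx hy fun i hi => ?_⟩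
  have h1 : inner ℝ (e i) (bil β he x x - bil β he y y) = om β i * (β i x x - β i y y) := by
    rw [inner_sub_right, bil_inner, bil_inner, wt_self, wt_self]; ring
  have h2 : |om β i * (β i x x - β i y y)| ≤ δ0 * m := by
    rw [← h1]
    refine (abs_real_inner_le_norm _ _).trans ?_
    rw [he.1 i, one_mul]
    exact hxy
  rw [abs_mul, abs_of_pos (om_pos β i)] at h2
  have h3 := hmN i hi
  have h4 : m * |β i x x - β i y y| ≤ m * δ0 := by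
    calc m * |β i x x - β i y y| ≤ om β i * |β i x x - β i y y| := by gcongr
      _ ≤ δ0 * m := h2
      _ = m * δ0 := mul_comm _ _
  exact le_of_mul_le_mul_left h4 hm

lemma lower (hβ : Det β) (he : Orthonormal ℝ e) :
    ∃ c : ℝ, 0 < c ∧ ∀ x : E, c * ‖x‖ ^ 2 ≤ ‖bil β he x x‖ := by
  obtain ⟨δ, hδ, h⟩ := ball_mod hβ he (ε := 1 / 2) (by norm_num)
  refine ⟨δ, hδ, fun x => ?_⟩
  by_cases hx : x = 0
  · subst hx; simp
  have hx0 : 0 < ‖x‖ := norm_pos_iff.2 hx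
  by_contra hlt
  push Not at hlt
  have h1 : ‖(‖x‖⁻¹ : ℝ) • x‖ = 1 := by
    rw [norm_smul, norm_inv, norm_norm, inv_mul_cancel₀ hx0.ne']
  have h2 := h ((‖x‖⁻¹ : ℝ) • x) 0 h1.le (by simp) (by
    rw [quad_smul]
    simp only [map_zero, sub_zero]
    rw [norm_smul, Real.norm_eq_abs, abs_of_nonneg (by positivity), inv_pow, inv_mul_le_iff₀ (by positivity)]
    rw [mul_comm]; exact hlt.le)
  rw [h1] at h2
  norm_num at h2

lemma local_mod (hβ : Det β) (he : Orthonormal ℝ e) (v : V) {ε : ℝ} (hε : 0 < ε) :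
    ∃ δ : ℝ, 0 < δ ∧ ∀ x y : E, ‖bil β he x x - v‖ < δ → ‖bil β he y y - v‖ < δ →
      |‖x‖ ^ 2 - ‖y‖ ^ 2| < ε := by
  obtain ⟨c, hc, hlow⟩ := lower hβ he
  set R : ℝ := 1 + (‖v‖ + 1) / c with hR
  have hR1 : 1 ≤ R := by
    have : 0 ≤ (‖v‖ + 1) / c := by positivity
    rw [hR]; linarith
  have hR0 : 0 < R := lt_of_lt_of_le one_pos hR1
  obtain ⟨δ1, hδ1, h1⟩ := ball_mod hβ he (ε := ε / (4 * R ^ 2)) (by positivity)
  have hbd : ∀ x : E, ‖bil β he x x - v‖ < 1 → ‖x‖ ≤ R := by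
    intro x hx
    have h2 : ‖bil β he x x‖ ≤ ‖v‖ + 1 := by
      calc ‖bil β he x x‖ = ‖(bil β he x x - v) + v‖ := by rw [sub_add_cancel]
        _ ≤ ‖bil β he x x - v‖ + ‖v‖ := norm_add_le _ _
        _ ≤ ‖v‖ + 1 := by linarith
    have h3 : ‖x‖ ^ 2 ≤ (‖v‖ + 1) / c := by
      rw [le_div_iff₀ hc]
      calc ‖x‖ ^ 2 * c = c * ‖x‖ ^ 2 := mul_comm _ _
        _ ≤ ‖v‖ + 1 := (hlow x).trans h2
    have h4 : ‖x‖ ^ 2 ≤ R ^ 2 := by nlinarith
    exact abs_le_of_sq_le_sq' h4 hR0.le |>.2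
  refine ⟨min 1 (δ1 / 2), lt_min one_pos (by positivity), fun x y hx hy => ?_⟩
  have hxR := hbd x (hx.trans_le (min_le_left _ _))
  have hyR := hbd y (hy.trans_le (min_le_left _ _))
  have hsc : ∀ z : E, ‖z‖ ≤ R → ‖(R⁻¹ : ℝ) • z‖ ≤ 1 := by
    intro z hz
    rw [norm_smul, norm_inv, Real.norm_eq_abs, abs_of_pos hR0, inv_mul_le_iff₀ hR0, mul_one]
    exact hz
  have hq : ‖bil β he ((R⁻¹ : ℝ) • x) ((R⁻¹ : ℝ) • x) - bil β he ((R⁻¹ : ℝ) • y) ((R⁻¹ : ℝ) • y)‖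
      ≤ δ1 := by
    rw [quad_smul, quad_smul, ← smul_sub, norm_smul, Real.norm_eq_abs, abs_of_nonneg (by positivity)]
    have h5 : ‖bil β he x x - bil β he y y‖ ≤ δ1 := by
      calc ‖bil β he x x - bil β he y y‖
          = ‖(bil β he x x - v) - (bil β he y y - v)‖ := by congr 1; abel
        _ ≤ ‖bil β he x x - v‖ + ‖bil β he y y - v‖ := norm_sub_le _ _
        _ ≤ δ1 / 2 + δ1 / 2 := add_le_add (hx.le.trans (min_le_right _ _))
            (hy.le.trans (min_le_right _ _))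
        _ = δ1 := by ring
    have h6 : (R⁻¹ : ℝ) ^ 2 ≤ 1 := by
      rw [inv_pow]
      exact inv_le_one_of_one_le₀ (one_le_pow₀ hR1)
    calc (R⁻¹ : ℝ) ^ 2 * ‖bil β he x x - bil β he y y‖ ≤ 1 * δ1 := by gcongr
      _ = δ1 := one_mul _
  have h7 := h1 _ _ (hsc x hxR) (hsc y hyR) hq
  rw [norm_smul, norm_smul, norm_inv, Real.norm_eq_abs, abs_of_pos hR0, ← mul_sub, abs_mul,
    abs_of_pos (inv_pos.2 hR0), inv_mul_le_iff₀ hR0] at h7
  have h8 : |‖x‖ ^ 2 - ‖y‖ ^ 2| = |‖x‖ - ‖y‖| * (‖x‖ + ‖y‖) := by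
    have h9 : ‖x‖ ^ 2 - ‖y‖ ^ 2 = (‖x‖ - ‖y‖) * (‖x‖ + ‖y‖) := by ring
    rw [h9, abs_mul, abs_of_nonneg (add_nonneg (norm_nonneg x) (norm_nonneg y))]
  rw [h8]
  calc |‖x‖ - ‖y‖| * (‖x‖ + ‖y‖) ≤ (R * (ε / (4 * R ^ 2))) * (R + R) := by gcongr
    _ = ε / 2 := by field_simp; ring
    _ < ε := by linarith

/-- the squared norm is a continuous function of the quadratic map -/
theorem exists_F (hβ : Det β) (he : Orthonormal ℝ e) :
    ∃ F : V → ℝ, Continuous F ∧ ∀ x : E, F (bil β he x x) = ‖x‖ ^ 2 := by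
  classical
  set q : E → V := fun x => bil β he x x with hq
  set A : Set V := Set.range q with hA
  let f : V → ℝ := fun v => if h : ∃ x, q x = v then ‖h.choose‖ ^ 2 else 0
  have hf : ∀ x, f (q x) = ‖x‖ ^ 2 := by
    intro x
    have hex : ∃ x', q x' = q x := ⟨x, rfl⟩
    have h1 : f (q x) = ‖hex.choose‖ ^ 2 := dif_pos hex
    rw [h1]
    by_contra hne
    obtain ⟨δ, hδ, h⟩ := local_mod hβ he (q x) (abs_pos.2 (sub_ne_zero.2 hne))
    have h2 := h hex.choose x (by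
      have : q hex.choose - q x = 0 := sub_eq_zero.2 hex.choose_spec
      show ‖q hex.choose - q x‖ < δ
      rw [this, norm_zero]; exact hδ) (by
      show ‖q x - q x‖ < δ
      rw [sub_self, norm_zero]; exact hδ)
    exact lt_irrefl _ h2
  have hlim : ∀ v ∈ closure A, ∃ l, Tendsto f (𝓝[A] v) (𝓝 l) := by
    intro v hv
    have : NeBot (𝓝[A] v) := mem_closure_iff_nhdsWithin_neBot.1 hv
    rw [← cauchy_map_iff_exists_tendsto, Metric.cauchy_iff]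
    refine ⟨inferInstance, fun ε hε => ?_⟩
    obtain ⟨δ, hδ, h⟩ := local_mod hβ he v hε
    refine ⟨f '' (Metric.ball v δ ∩ A), image_mem_map ?_, ?_⟩
    · exact inter_mem (mem_nhdsWithin_of_mem_nhds (Metric.ball_mem_nhds v hδ)) self_mem_nhdsWithin
    · rintro _ ⟨_, ⟨hx, ⟨x, rfl⟩⟩, rfl⟩ _ ⟨_, ⟨hy, ⟨y, rfl⟩⟩, rfl⟩
      rw [hf, hf, Real.dist_eq]
      rw [Metric.mem_ball, dist_eq_norm] at hx hy
      exact h x y hx hy
  have hg : ContinuousOn (extendFrom A f) (closure A) := continuousOn_extendFrom subset_rfl hlim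
  have hgq : ∀ x, extendFrom A f (q x) = ‖x‖ ^ 2 := by
    intro x
    rw [← hf x]
    refine extendFrom_eq (subset_closure ⟨x, rfl⟩) ?_
    rw [Metric.tendsto_nhdsWithin_nhds]
    intro ε hε
    obtain ⟨δ, hδ, h⟩ := local_mod hβ he (q x) hε
    refine ⟨δ, hδ, ?_⟩
    rintro _ ⟨y, rfl⟩ hy
    rw [hf, hf, Real.dist_eq]
    rw [dist_eq_norm] at hy
    exact h y x hy (by
      show ‖q x - q x‖ < δ
      rw [sub_self, norm_zero]; exact hδ)
  obtain ⟨F, hF⟩ := ContinuousMap.exists_restrict_eq (isClosed_closure (s := A))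
    ⟨(closure A).domRestrict (extendFrom A f), continuousOn_iff_continuous_domRestrict.1 hg⟩
  refine ⟨F, F.continuous, fun x => ?_⟩
  have hx : q x ∈ closure A := subset_closure ⟨x, rfl⟩
  have h1 := DFunLike.congr_fun hF ⟨q x, hx⟩
  have h2 : F (q x) = extendFrom A f (q x) := h1
  rw [← hgq x, ← h2]

/-- the data -/
theorem exists_data (hβ : Det β) (he : Orthonormal ℝ e) :
    ∃ F : V → ℝ, Data (bil β he) F := by
  obtain ⟨F, hF, hFq⟩ := exists_F hβ he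
  exact ⟨F, fun x y => bil_symm β he x y, hF, hFq,
    cube e, cube_compact he, fun x y hx hy => bil_mem_cube β he hx hy⟩

/-- an enumeration of all the forms needed -/
theorem exists_det
    (hU : ∀ ε : ℝ, 0 < ε → ∃ (m : ℕ) (b : Fin m → E →L[ℝ] E →L[ℝ] ℝ) (δ : ℝ), 0 < δ ∧
      ∀ x y : E, ‖x‖ ≤ 1 → ‖y‖ ≤ 1 → (∀ i, |b i x x - b i y y| ≤ δ) → |‖x‖ - ‖y‖| ≤ ε) :
    ∃ β : ℕ → (E →L[ℝ] E →L[ℝ] ℝ), Det β := by
  have hpos : ∀ k : ℕ, (0 : ℝ) < 1 / ((k : ℝ) + 1) := fun k => by positivity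
  choose m b δ hδ h using fun k : ℕ => hU (1 / ((k : ℝ) + 1)) (hpos k)
  let β : ℕ → (E →L[ℝ] E →L[ℝ] ℝ) := fun n =>
    ((Encodable.decode n : Option (Σ k, Fin (m k))).map fun p => b p.1 p.2).getD 0
  have hβ : ∀ (k : ℕ) (i : Fin (m k)), β (Encodable.encode (⟨k, i⟩ : Σ k, Fin (m k))) = b k i := by
    intro k i
    show ((Encodable.decode (Encodable.encode (⟨k, i⟩ : Σ k, Fin (m k))) :
      Option (Σ k, Fin (m k))).map fun p => b p.1 p.2).getD 0 = b k i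
    rw [Encodable.encodek]
    rfl
  refine ⟨β, fun ε hε => ?_⟩
  obtain ⟨k, hk⟩ := exists_nat_one_div_lt hε
  refine ⟨(Finset.univ.sup fun i : Fin (m k) => Encodable.encode (⟨k, i⟩ : Σ k, Fin (m k))) + 1,
    δ k, hδ k, fun x y hx hy hxy => (h k x y hx hy fun i => ?_).trans hk.le⟩
  have h1 := hxy (Encodable.encode (⟨k, i⟩ : Σ k, Fin (m k)))
    (Nat.lt_succ_of_le (Finset.le_sup (f := fun i : Fin (m k) =>
      Encodable.encode (⟨k, i⟩ : Σ k, Fin (m k))) (Finset.mem_univ i)))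
  rw [hβ] at h1
  exact h1

/-- the parallelogram law from the hypothesis on quadratic forms -/
theorem paral_of_forms (hat : AT E) (hinf : ¬ FiniteDimensional ℝ E)
    (hU : ∀ ε : ℝ, 0 < ε → ∃ (m : ℕ) (b : Fin m → E →L[ℝ] E →L[ℝ] ℝ) (δ : ℝ), 0 < δ ∧
      ∀ x y : E, ‖x‖ ≤ 1 → ‖y‖ ≤ 1 → (∀ i, |b i x x - b i y y| ≤ δ) → |‖x‖ - ‖y‖| ≤ ε)
    (x k : E) : ‖x + k‖ ^ 2 + ‖x - k‖ ^ 2 = 2 * ‖x‖ ^ 2 + 2 * ‖k‖ ^ 2 := by
  obtain ⟨β, hβ⟩ := exists_det hU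
  let hb : HilbertBasis ℕ ℝ (lp (fun _ : ℕ => ℝ) 2) :=
    HilbertBasis.ofRepr (LinearIsometryEquiv.refl ℝ _)
  obtain ⟨F, hF⟩ := exists_data hβ hb.orthonormal
  exact paral hF hat hinf x k

end Pool.TH578.Quad
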