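import Pool.Agent.TH578.Quad.Pyth

/-!
# The parallelogram law
-/

set_option autoImplicit false
set_option linter.unusedSectionVars false

namespace Pool.TH578.Quad

open Filter Topology

variable {E : Type*} [NormedAddCommGroup E] [NormedSpace ℝ E]
  {V : Type*} [NormedAddCommGroup V] [InnerProductSpace ℝ V]

variable {B : E →L[ℝ] E →L[ℝ] V} {F : V → ℝ}

/-- the limit functional of a bounded family along an ultrafilter -/
lemma exists_lam (h : Data B F) {ι : Type*} (u : Ultrafilter ι) (z : ι → E) {R : ℝ}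
    (hz : ∀ᶠ i in (u : Filter ι), ‖z i‖ ≤ R) :
    ∃ lam : E →L[ℝ] V, ∀ x, Tendsto (fun i => B x (z i)) (u : Filter ι) (𝓝 (lam x)) := by
  have hex : ∀ x, ∃ v, Tendsto (fun i => B x (z i)) (u : Filter ι) (𝓝 v) := fun x =>
    ultra_lim h u (fun _ => x) z (R := max R ‖x‖)
      (Eventually.of_forall fun _ => le_max_right _ _)
      (hz.mono fun i hi => hi.trans (le_max_left _ _))
  choose lam hlam using hex
  let L : E →ₗ[ℝ] V :=
    { toFun := lam
      map_add' := fun x y => tendsto_nhds_unique (hlam (x + y))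
        (((hlam x).add (hlam y)).congr fun i => by rw [map_add, add_apply])
      map_smul' := fun t x => tendsto_nhds_unique (hlam (t • x))
        (((hlam x).const_smul t).congr fun i => by rw [map_smul, smul_apply]) }
  refine ⟨L.mkContinuous (‖B‖ * R) fun x => ?_, fun x => hlam x⟩
  refine le_of_tendsto (hlam x).norm ?_
  filter_upwards [hz] with i hi
  calc ‖B x (z i)‖ ≤ ‖B‖ * ‖x‖ * ‖z i‖ := quad_bound x (z i)
    _ ≤ ‖B‖ * ‖x‖ * R := by gcongr
    _ = ‖B‖ * R * ‖x‖ := by ring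

lemma real_lim {ι : Type*} (u : Ultrafilter ι) (a : ι → ℝ) {R : ℝ}
    (ha : ∀ᶠ i in (u : Filter ι), |a i| ≤ R) : ∃ l, Tendsto a (u : Filter ι) (𝓝 l) := by
  have h2 : ((u.map a : Ultrafilter ℝ) : Filter ℝ) ≤ 𝓟 (Metric.closedBall (0 : ℝ) R) := by
    rw [le_principal_iff]
    exact (ha.mono fun i hi => by
      rw [Metric.mem_closedBall, dist_zero_right]; exact hi :
      ∀ᶠ i in (u : Filter ι), a i ∈ Metric.closedBall (0 : ℝ) R)
  obtain ⟨v, -, hv⟩ := (isCompact_closedBall (0 : ℝ) R).ultrafilter_le_nhds _ h2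
  exact ⟨v, hv⟩

/-- limits of `B (y i) (z i)` with `y` weakly null and `z` bounded are differences of free values -/
lemma cross_span (h : Data B F) {ι : Type*} {u : Ultrafilter ι} {y z : ι → E} {c : V}
    (t : Ty B (u : Filter ι) y c) {R : ℝ} (hz : ∀ᶠ i in (u : Filter ι), ‖z i‖ ≤ R) {β : V}
    (hβ : Tendsto (fun i => B (y i) (z i)) (u : Filter ι) (𝓝 β)) :
    ∃ c1 ∈ Cone B, ∃ c2 ∈ Cone B, c1 - c2 = (4 : ℝ) • β := by
  obtain ⟨lam, hlam⟩ := exists_lam h u z hz
  set R1 : ℝ := max R (Real.sqrt (F c + 1)) with hR1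
  have hyR : ∀ᶠ i in (u : Filter ι), ‖y i‖ ≤ R1 := (t.bdd h).mono fun i hi =>
    hi.trans (le_max_right _ _)
  have hzR : ∀ᶠ i in (u : Filter ι), ‖z i‖ ≤ R1 := hz.mono fun i hi =>
    hi.trans (le_max_left _ _)
  -- `lam (y i)` tends to zero
  have hl0 : Tendsto (fun i => lam (y i)) (u : Filter ι) (𝓝 0) := by
    obtain ⟨K, hK, hK2⟩ := comp_ball h R1
    have h1 : ∀ᶠ i in (u : Filter ι), lam (y i) ∈ K := by
      filter_upwards [hyR] with i hi
      refine hK.isClosed.mem_of_tendsto (hlam (y i)) ?_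
      filter_upwards [hzR] with j hj
      exact hK2 _ _ hi hj
    have h2 : ((u.map (fun i => lam (y i)) : Ultrafilter V) : Filter V) ≤ 𝓟 K := by
      rw [le_principal_iff]
      exact h1
    obtain ⟨v, -, hv⟩ := hK.ultrafilter_le_nhds _ h2
    have hv' : Tendsto (fun i => lam (y i)) (u : Filter ι) (𝓝 v) := hv
    have hv0 : v = 0 := by
      have h3 : inner ℝ v v = 0 := by
        have h4 : Tendsto (fun i => inner ℝ v (lam (y i))) (u : Filter ι) (𝓝 (inner ℝ v v)) :=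
          tendsto_const_nhds.inner hv'
        have h5 : Tendsto (fun i => ((innerSL ℝ v).comp lam) (y i)) (u : Filter ι) (𝓝 0) :=
          t.weak _
        exact tendsto_nhds_unique h4 h5
      exact inner_self_eq_zero.1 h3
    rw [hv0] at hv'
    exact hv'
  have hne := curry_neBot (u : Filter ι) (u : Filter ι)
  let Q : Ultrafilter (ι × ι) := Ultrafilter.of ((u : Filter ι).curry (u : Filter ι))
  have hQ : (Q : Filter (ι × ι)) ≤ (u : Filter ι).curry (u : Filter ι) := Ultrafilter.of_le _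
  have hwk : ∀ (s : ℝ) (f : StrongDual ℝ E), Tendsto
      (fun p : ι × ι => f (y p.1 + s • (z p.1 - z p.2))) (Q : Filter (ι × ι)) (𝓝 0) := by
    intro s f
    obtain ⟨l, hl⟩ := real_lim u (fun i => f (z i)) (R := ‖f‖ * R1) (by
      filter_upwards [hzR] with i hi
      calc |f (z i)| = ‖f (z i)‖ := rfl
        _ ≤ ‖f‖ * ‖z i‖ := f.le_opNorm _
        _ ≤ ‖f‖ * R1 := by gcongr)
    have h1 := tendsto_curry (u := (u : Filter ι)) (v := (u : Filter ι))
      (f := fun a b => f (y a) + s * (f (z a) - f (z b)))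
      (g := fun a => f (y a) + s * (f (z a) - l)) (l := 0 + s * (l - l))
      (fun a => tendsto_const_nhds.add ((tendsto_const_nhds.sub hl).const_mul s))
      ((t.weak f).add ((hl.sub tendsto_const_nhds).const_mul s))
    rw [sub_self, mul_zero, add_zero] at h1
    exact (h1.mono_left hQ).congr fun p => by simp
  have hbd : ∀ s : ℝ, |s| ≤ 1 → ∀ᶠ p : ι × ι in (Q : Filter (ι × ι)),
      ‖y p.1 + s • (z p.1 - z p.2)‖ ≤ 3 * R1 := by
    intro s hs
    have : ∀ᶠ p : ι × ι in (u : Filter ι).curry (u : Filter ι),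
        ‖y p.1 + s • (z p.1 - z p.2)‖ ≤ 3 * R1 := by
      rw [Filter.eventually_curry_iff]
      filter_upwards [hyR, hzR] with a ha1 ha2
      filter_upwards [hzR] with b hb
      calc ‖y a + s • (z a - z b)‖ ≤ ‖y a‖ + ‖s • (z a - z b)‖ := norm_add_le _ _
        _ ≤ ‖y a‖ + 1 * (‖z a‖ + ‖z b‖) := by
            rw [norm_smul, Real.norm_eq_abs]
            gcongr
            exact norm_sub_le _ _
        _ ≤ 3 * R1 := by linarith
    exact this.filter_mono hQ
  have hex : ∀ s : ℝ, |s| ≤ 1 → ∃ c' ∈ Cone B, Tendsto (fun p : ι × ι =>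
      B (y p.1 + s • (z p.1 - z p.2)) (y p.1 + s • (z p.1 - z p.2))) (Q : Filter (ι × ι))
      (𝓝 c') := by
    intro s hs
    obtain ⟨c', hc'⟩ := ultra_lim h Q _ _ (hbd s hs) (hbd s hs)
    have ht : Ty B (Q : Filter (ι × ι)) (fun p : ι × ι => y p.1 + s • (z p.1 - z p.2)) c' :=
      ⟨hwk s, hc'⟩
    exact ⟨c', ht.mem_cone, hc'⟩
  obtain ⟨c1, hc1, h1⟩ := hex 1 (by norm_num)
  obtain ⟨c2, hc2, h2⟩ := hex (-1) (by norm_num)
  refine ⟨c1, hc1, c2, hc2, ?_⟩
  have h3 : Tendsto (fun p : ι × ι => (4 : ℝ) • (B (y p.1) (z p.1) - B (y p.1) (z p.2)))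
      (Q : Filter (ι × ι)) (𝓝 ((4 : ℝ) • (β - 0))) :=
    (tendsto_curry (u := (u : Filter ι)) (v := (u : Filter ι))
      (f := fun a b => (4 : ℝ) • (B (y a) (z a) - B (y a) (z b)))
      (g := fun a => (4 : ℝ) • (B (y a) (z a) - lam (y a))) (l := (4 : ℝ) • (β - 0))
      (fun a => (tendsto_const_nhds.sub (hlam (y a))).const_smul _)
      ((hβ.sub hl0).const_smul _)).mono_left hQ
  rw [sub_zero] at h3
  refine tendsto_nhds_unique (h1.sub h2) (h3.congr fun p => ?_)
  rw [one_smul, neg_smul, one_smul, ← sub_eq_add_neg, quad_add h (y p.1) (z p.1 - z p.2),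
    quad_sub h (y p.1) (z p.1 - z p.2), ← map_sub (B (y p.1))]
  have e : ∀ a b c : V, a + b + (2 : ℝ) • c - (a + b - (2 : ℝ) • c) = (4 : ℝ) • c := by
    intro a b c
    have : (4 : ℝ) • c = (2 : ℝ) • c + (2 : ℝ) • c := by rw [← add_smul]; norm_num
    rw [this]; abel
  rw [e]

/-- the parallelogram law -/
theorem paral [CompleteSpace V] (h : Data B F) (hat : AT E) (hinf : ¬ FiniteDimensional ℝ E)
    (x k : E) : ‖x + k‖ ^ 2 + ‖x - k‖ ^ 2 = 2 * ‖x‖ ^ 2 + 2 * ‖k‖ ^ 2 := by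
  obtain ⟨g, hgC, hg, hinv⟩ := exists_g h hinf
  obtain ⟨u, hu⟩ := hgC
  have hgC : g ∈ Cone B := ⟨u, hu⟩
  have hcl : ∀ a ∈ closure (Set.range fun x => B x x), ∀ w ∈ Cone B, F (a + w) = F a + F w := by
    intro a ha w hw
    have hclosed : IsClosed {a | F (a + w) = F a + F w} :=
      isClosed_eq (h.cont.comp (continuous_id.add continuous_const))
        (h.cont.add continuous_const)
    refine hclosed.closure_subset_iff.2 ?_ ha
    rintro _ ⟨x, rfl⟩
    show F (B x x + w) = F (B x x) + F w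
    rw [pyth h hat hgC hg hinv x hw, h.norm]
  set r : ℝ := ‖x‖ with hr
  have hcont : Continuous fun z : E => ‖z + k‖ ^ 2 + ‖z - k‖ ^ 2 := by fun_prop
  have key : ∀ δ : ℝ, 0 < δ →
      |(‖x + k‖ ^ 2 + ‖x - k‖ ^ 2) - (2 * ‖x‖ ^ 2 + 2 * ‖k‖ ^ 2)| ≤ δ := by
    intro δ hδ
    obtain ⟨ε, hε, hc⟩ := Metric.continuousAt_iff.1 (hcont.continuousAt (x := x)) δ hδ
    have hex : ∀ y : E, ∃ T : E ≃ₗᵢ[ℝ] E, y ≠ 0 → ‖T ((r / ‖y‖) • y) - x‖ < ε := by
      intro y
      by_cases hy : y = 0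
      · exact ⟨LinearIsometryEquiv.refl ℝ E, fun h => absurd hy h⟩
      · obtain ⟨T, hT⟩ := hat.scaled (norm_rescale hy (norm_nonneg x)) hε
        exact ⟨T, fun _ => hT⟩
    choose T hT using hex
    -- the rescaled net is of type `r ^ 2 • g`
    have hn1 : Tendsto (fun y : E => ‖y‖) (u : Filter E) (𝓝 1) := by
      have h1 := (hu.normSq h).sqrt
      rw [hg, Real.sqrt_one] at h1
      exact h1.congr fun y => Real.sqrt_sq (norm_nonneg y)
    have ht : Ty B (u : Filter E) (fun y => (r / ‖y‖) • y) ((r ^ 2) • g) := by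
      refine ⟨fun f => ?_, rescale h hu hg r⟩
      have h1 : Tendsto (fun y : E => (r / ‖y‖) * f y) (u : Filter E) (𝓝 ((r / 1) * 0)) :=
        (tendsto_const_nhds.div hn1 one_ne_zero).mul (hu.weak f)
      rw [mul_zero] at h1
      exact h1.congr fun y => by simp
    set z : E → E := fun y => (T y).symm k with hz
    have hzb : ∀ᶠ y in (u : Filter E), ‖z y‖ ≤ ‖k‖ :=
      Eventually.of_forall fun y => ((T y).symm.norm_map k).le
    obtain ⟨a, ha⟩ := ultra_lim h u z z hzb hzb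
    obtain ⟨β, hβ⟩ := ultra_lim h u (fun y => (r / ‖y‖) • y) z
      (R := max (Real.sqrt (F ((r ^ 2) • g) + 1)) ‖k‖)
      ((ht.bdd h).mono fun y hy => hy.trans (le_max_left _ _))
      (hzb.mono fun y hy => hy.trans (le_max_right _ _))
    obtain ⟨c1, hc1, c2, hc2, hcc⟩ := cross_span h ht hzb hβ
    set d1 : V := (1 / 2 : ℝ) • c1 with hd1
    set d2 : V := (1 / 2 : ℝ) • c2 with hd2
    have hd1C : d1 ∈ Cone B := cone_smul hc1 (by norm_num)
    have hd2C : d2 ∈ Cone B := cone_smul hc2 (by norm_num)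
    have hdd : (2 : ℝ) • β = d1 - d2 := by
      rw [hd1, hd2, ← smul_sub, hcc, smul_smul]; norm_num
    have hrg : (r ^ 2) • g ∈ Cone B := cone_smul hgC (by positivity)
    have haR : a ∈ closure (Set.range fun x => B x x) :=
      mem_closure_of_tendsto ha (Eventually.of_forall fun y => ⟨z y, rfl⟩)
    -- the two limits
    have hp : Tendsto (fun y => B ((r / ‖y‖) • y + z y) ((r / ‖y‖) • y + z y)) (u : Filter E)
        (𝓝 ((r ^ 2) • g + a + (2 : ℝ) • β)) :=
      ((ht.quad.add ha).add (hβ.const_smul 2)).congr fun y => (quad_add h _ _).symm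
    have hm : Tendsto (fun y => B ((r / ‖y‖) • y - z y) ((r / ‖y‖) • y - z y)) (u : Filter E)
        (𝓝 ((r ^ 2) • g + a - (2 : ℝ) • β)) :=
      ((ht.quad.add ha).sub (hβ.const_smul 2)).congr fun y => (quad_sub h _ _).symm
    have hpR : (r ^ 2) • g + a + (2 : ℝ) • β ∈ closure (Set.range fun x => B x x) :=
      mem_closure_of_tendsto hp (Eventually.of_forall fun y => ⟨_, rfl⟩)
    have hmR : (r ^ 2) • g + a - (2 : ℝ) • β ∈ closure (Set.range fun x => B x x) :=
      mem_closure_of_tendsto hm (Eventually.of_forall fun y => ⟨_, rfl⟩)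
    have e1 := hcl _ hpR _ hd2C
    have e2 := hcl _ hmR _ hd1C
    have e3 : (r ^ 2) • g + a + (2 : ℝ) • β + d2 = a + ((r ^ 2) • g + d1) := by
      rw [hdd]; abel
    have e4 : (r ^ 2) • g + a - (2 : ℝ) • β + d1 = a + ((r ^ 2) • g + d2) := by
      rw [hdd]; abel
    rw [e3, hcl a haR _ (cone_add h hrg hd1C),
      F_add_g h hat hgC hg hinv hd1C (by positivity)] at e1
    rw [e4, hcl a haR _ (cone_add h hrg hd2C),
      F_add_g h hat hgC hg hinv hd2C (by positivity)] at e2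
    have hFa : Tendsto (fun y => ‖z y‖ ^ 2) (u : Filter E) (𝓝 (F a)) :=
      ((h.cont.tendsto _).comp ha).congr fun y => h.norm _
    have hFa' : F a = ‖k‖ ^ 2 := by
      refine tendsto_nhds_unique hFa (tendsto_const_nhds.congr fun y => ?_)
      rw [hz]
      simp only [LinearIsometryEquiv.norm_map]
    have hlim : Tendsto (fun y => ‖(r / ‖y‖) • y + z y‖ ^ 2 + ‖(r / ‖y‖) • y - z y‖ ^ 2)
        (u : Filter E) (𝓝 (2 * ‖x‖ ^ 2 + 2 * ‖k‖ ^ 2)) := by
      have h1 : Tendsto (fun y => ‖(r / ‖y‖) • y + z y‖ ^ 2) (u : Filter E)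
          (𝓝 (F ((r ^ 2) • g + a + (2 : ℝ) • β))) :=
        ((h.cont.tendsto _).comp hp).congr fun y => h.norm _
      have h2 : Tendsto (fun y => ‖(r / ‖y‖) • y - z y‖ ^ 2) (u : Filter E)
          (𝓝 (F ((r ^ 2) • g + a - (2 : ℝ) • β))) :=
        ((h.cont.tendsto _).comp hm).congr fun y => h.norm _
      have h3 := h1.add h2
      have e5 : F ((r ^ 2) • g + a + (2 : ℝ) • β) + F ((r ^ 2) • g + a - (2 : ℝ) • β) =
          2 * ‖x‖ ^ 2 + 2 * ‖k‖ ^ 2 := by
        rw [← hFa', ← hr]; linarith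
      rw [e5] at h3
      exact h3
    refine le_of_tendsto ((tendsto_const_nhds.sub hlim).abs) ?_
    filter_upwards [ev_ne h hu hg] with y hy
    have h1 := hc (show dist (T y ((r / ‖y‖) • y)) x < ε by rw [dist_eq_norm]; exact hT y hy)
    rw [dist_comm, Real.dist_eq] at h1
    have h2 : ‖T y ((r / ‖y‖) • y) + k‖ = ‖(r / ‖y‖) • y + z y‖ := by
      rw [← (T y).norm_map ((r / ‖y‖) • y + z y), map_add]
      simp only [hz, LinearIsometryEquiv.apply_symm_apply]
    have h3 : ‖T y ((r / ‖y‖) • y) - k‖ = ‖(r / ‖y‖) • y - z y‖ := by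
      rw [← (T y).norm_map ((r / ‖y‖) • y - z y), map_sub]
      simp only [hz, LinearIsometryEquiv.apply_symm_apply]
    rw [h2, h3] at h1
    exact h1.le
  have h0 : |(‖x + k‖ ^ 2 + ‖x - k‖ ^ 2) - (2 * ‖x‖ ^ 2 + 2 * ‖k‖ ^ 2)| ≤ 0 :=
    le_of_forall_pos_le_add fun δ hδ => by rw [zero_add]; exact key δ hδ
  exact sub_eq_zero.1 (abs_nonpos_iff.1 h0)

end Pool.TH578.Quad
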