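import Pool.Agent.TH578.Quad.Cone

/-!
# The isometry group acts on free values; an invariant free value
-/

set_option autoImplicit false
set_option linter.unusedSectionVars false

namespace Pool.TH578.Quad

open Filter Topology

variable {E : Type*} [NormedAddCommGroup E] [NormedSpace ℝ E]
  {V : Type*} [NormedAddCommGroup V] [InnerProductSpace ℝ V]

/-- `c'` is a translate of the free value `c` under the isometry `T` -/
def Rel (B : E →L[ℝ] E →L[ℝ] V) (F : V → ℝ) (T : E ≃ₗᵢ[ℝ] E) (c c' : V) : Prop :=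
  ∀ x, F (B (T x) (T x) + c') = F (B x x + c)

variable {B : E →L[ℝ] E →L[ℝ] V} {F : V → ℝ}

lemma Rel.F_eq {T : E ≃ₗᵢ[ℝ] E} {c c' : V} (r : Rel B F T c c') : F c' = F c := by
  have := r 0
  simpa using this

lemma Ty.map (T : E ≃ₗᵢ[ℝ] E) {ι : Type*} {u : Filter ι} {y : ι → E} {c : V} {c' : V}
    (t : Ty B u y c) (hq : Tendsto (fun i => B (T (y i)) (T (y i))) u (𝓝 c')) :
    Ty B u (fun i => T (y i)) c' :=
  ⟨fun f => t.weak (f.comp (T.toContinuousLinearEquiv : E →L[ℝ] E)), hq⟩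

lemma transfer (h : Data B F) (T : E ≃ₗᵢ[ℝ] E) {ι : Type*} {u : Ultrafilter ι} {y : ι → E} {c : V}
    (t : Ty B (u : Filter ι) y c) : ∃ c', Ty B (u : Filter ι) (fun i => T (y i)) c' := by
  have hb : ∀ᶠ i in (u : Filter ι), ‖T (y i)‖ ≤ Real.sqrt (F c + 1) := by
    filter_upwards [t.bdd h] with i hi
    rw [T.norm_map]; exact hi
  obtain ⟨c', hc'⟩ := ultra_lim h u (fun i => T (y i)) (fun i => T (y i)) hb hb
  exact ⟨c', t.map T hc'⟩

lemma rel_of_ty (h : Data B F) (T : E ≃ₗᵢ[ℝ] E) {ι : Type*} {u : Filter ι} [NeBot u] {y : ι → E}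
    {c c' : V} (t : Ty B u y c) (t' : Ty B u (fun i => T (y i)) c') : Rel B F T c c' := by
  intro x
  refine tendsto_nhds_unique (t'.norm_shift h (T x)) ((t.norm_shift h x).congr fun i => ?_)
  rw [← map_add, T.norm_map]

lemma exists_rel (h : Data B F) (T : E ≃ₗᵢ[ℝ] E) {c : V} (hc : c ∈ Cone B) :
    ∃ c' ∈ Cone B, Rel B F T c c' := by
  obtain ⟨u, hu⟩ := hc
  obtain ⟨c', hc'⟩ := transfer h T hu
  exact ⟨c', hc'.mem_cone, rel_of_ty h T hu hc'⟩

lemma rel_add (h : Data B F) {T : E ≃ₗᵢ[ℝ] E} {c c' d d' : V} (hc : c ∈ Cone B)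
    (hd' : d' ∈ Cone B) (r : Rel B F T c c') (s : Rel B F T d d') :
    Rel B F T (c + d) (c' + d') := by
  intro x
  obtain ⟨u, hu⟩ := hc
  obtain ⟨c0, hc0⟩ := transfer h T hu
  have r0 : Rel B F T c c0 := rel_of_ty h T hu hc0
  -- Step A
  have hA : F (B (T x) (T x) + (c0 + d')) = F (B x x + (c + d)) := by
    have h1 : Tendsto (fun y => F (B (T x + T y) (T x + T y) + d')) (u : Filter E)
        (𝓝 (F (B (T x) (T x) + c0 + d'))) :=
      (h.cont.tendsto _).comp ((hc0.quad_shift h (T x)).add tendsto_const_nhds)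
    have h2 : Tendsto (fun y => F (B (x + y) (x + y) + d)) (u : Filter E)
        (𝓝 (F (B x x + c + d))) :=
      (h.cont.tendsto _).comp ((hu.quad_shift h x).add tendsto_const_nhds)
    rw [← add_assoc, ← add_assoc]
    refine tendsto_nhds_unique h1 (h2.congr fun y => ?_)
    rw [← map_add]
    exact (s (x + y)).symm
  -- Step B
  have hB : ∀ z, F (B z z + c') = F (B z z + c0) := by
    intro z
    have h1 := r (T.symm z)
    have h2 := r0 (T.symm z)
    rw [T.apply_symm_apply] at h1 h2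
    rw [h1, h2]
  -- Step C
  have hC : ∀ z, F (B z z + (c' + d')) = F (B z z + (c0 + d')) := by
    intro z
    obtain ⟨v, hv⟩ := hd'
    have h1 : Tendsto (fun w => F (B (z + w) (z + w) + c')) (v : Filter E)
        (𝓝 (F (B z z + d' + c'))) :=
      (h.cont.tendsto _).comp ((hv.quad_shift h z).add tendsto_const_nhds)
    have h2 : Tendsto (fun w => F (B (z + w) (z + w) + c0)) (v : Filter E)
        (𝓝 (F (B z z + d' + c0))) :=
      (h.cont.tendsto _).comp ((hv.quad_shift h z).add tendsto_const_nhds)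
    have h3 : F (B z z + d' + c') = F (B z z + d' + c0) :=
      tendsto_nhds_unique h1 (h2.congr fun w => (hB (z + w)).symm)
    have e1 : B z z + (c' + d') = B z z + d' + c' := by abel
    have e2 : B z z + (c0 + d') = B z z + d' + c0 := by abel
    rw [e1, e2, h3]
  rw [hC, hA]

lemma rel_smul (h : Data B F) {T : E ≃ₗᵢ[ℝ] E} {c c' : V} (hc : c ∈ Cone B) (hc' : c' ∈ Cone B)
    (r : Rel B F T c c') {t : ℝ} (ht : 0 ≤ t) : Rel B F T (t • c) (t • c') := by
  intro x
  rcases ht.eq_or_lt with h0 | h0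
  · rw [← h0, zero_smul, zero_smul, add_zero, add_zero, h.norm, h.norm, T.norm_map]
  · have hs : 0 < Real.sqrt t := Real.sqrt_pos.2 h0
    have key : ∀ z : E, ∀ d ∈ Cone B, F (B z z + t • d) =
        t * F (B ((Real.sqrt t)⁻¹ • z) ((Real.sqrt t)⁻¹ • z) + d) := by
      intro z d hd
      rw [← F_smul_shift h hd _ h0.le, smul_add, quad_smul, smul_smul]
      have : t * (Real.sqrt t)⁻¹ ^ 2 = 1 := by
        rw [inv_pow, Real.sq_sqrt h0.le]; exact mul_inv_cancel₀ h0.ne'
      rw [this, one_smul]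
    rw [key _ _ hc', key _ _ hc, ← map_smul]
    congr 1
    exact r _

/-- bounded parts of the cone are compact -/
lemma compact_cone (h : Data B F) (M : ℝ) : IsCompact {c | c ∈ Cone B ∧ F c ≤ M} := by
  obtain ⟨K, hK, hK2⟩ := comp_ball h (Real.sqrt (M + 1))
  refine hK.of_isClosed_subset ?_ ?_
  · exact cone_closed.inter (isClosed_le h.cont continuous_const)
  · rintro c ⟨⟨u, hu⟩, hc⟩
    refine hK.isClosed.mem_of_tendsto hu.quad ?_
    filter_upwards [hu.bdd h] with y hy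
    have : ‖y‖ ≤ Real.sqrt (M + 1) := hy.trans (Real.sqrt_le_sqrt (by linarith))
    exact hK2 _ _ this this

lemma ultra_cone (h : Data B F) {ι : Type*} (u : Ultrafilter ι) (c : ι → V) {M : ℝ}
    (hc : ∀ i, c i ∈ Cone B) (hM : ∀ᶠ i in (u : Filter ι), F (c i) ≤ M) :
    ∃ d ∈ Cone B, Tendsto c (u : Filter ι) (𝓝 d) := by
  have h2 : ((u.map c : Ultrafilter V) : Filter V) ≤ 𝓟 {c | c ∈ Cone B ∧ F c ≤ M} := by
    rw [le_principal_iff]
    exact hM.mono fun i hi => ⟨hc i, hi⟩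
  obtain ⟨v, hv1, hv⟩ := (compact_cone h M).ultrafilter_le_nhds _ h2
  exact ⟨v, hv1.1, hv⟩

/-- the base of the cone -/
def Base (B : E →L[ℝ] E →L[ℝ] V) (F : V → ℝ) : Set V := closure (convexHull ℝ {c | c ∈ Cone B ∧ F c = 1})

lemma cone_convex (h : Data B F) : Convex ℝ (Cone B) := by
  intro c hc d hd a b ha hb _
  exact cone_add h (cone_smul hc ha) (cone_smul hd hb)

lemma base_sub (h : Data B F) : Base B F ⊆ Cone B := by
  refine closure_minimal ?_ cone_closed
  exact convexHull_min (fun c hc => hc.1) (cone_convex h)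

lemma base_convex : Convex ℝ (Base B F) := (convex_convexHull ℝ _).closure

lemma base_compact [CompleteSpace V] (h : Data B F) : IsCompact (Base B F) := by
  have h1 : TotallyBounded {c | c ∈ Cone B ∧ F c = 1} :=
    (compact_cone h 1).totallyBounded.subset
      (show {c | c ∈ Cone B ∧ F c = 1} ⊆ {c | c ∈ Cone B ∧ F c ≤ 1} from
        fun c hc => ⟨hc.1, hc.2.le⟩)
  exact TotallyBounded.isCompact_of_isClosed (h1.convexHull.closure) isClosed_closure

lemma base_rel [CompleteSpace V] (h : Data B F) (T : E ≃ₗᵢ[ℝ] E) {c : V} (hc : c ∈ Base B F) :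
    ∃ c' ∈ Base B F, Rel B F T c c' := by
  -- the set of points with a translate in the base
  let S : Set V := {c | c ∈ Cone B ∧ ∃ c' ∈ Base B F, Rel B F T c c'}
  have hS : Base B F ⊆ S := by
    refine closure_minimal (convexHull_min ?_ ?_) ?_
    · rintro c ⟨hc1, hc2⟩
      obtain ⟨c', hc', r⟩ := exists_rel h T hc1
      refine ⟨hc1, c', subset_closure (subset_convexHull ℝ _ ⟨hc', ?_⟩), r⟩
      rw [r.F_eq, hc2]
    · rintro c ⟨hc, c', hc', r⟩ d ⟨hd, d', hd', s⟩ a b ha hb hab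
      refine ⟨cone_convex h hc hd ha hb hab, a • c' + b • d', base_convex hc' hd' ha hb hab, ?_⟩
      exact rel_add h (cone_smul hc ha) (cone_smul (base_sub h hd') hb)
        (rel_smul h hc (base_sub h hc') r ha) (rel_smul h hd (base_sub h hd') s hb)
    · rw [← closure_subset_iff_isClosed]
      intro c hc
      obtain ⟨x, hx, hxc⟩ := mem_closure_iff_seq_limit.1 hc
      choose hx1 x' hx' hr using hx
      obtain ⟨c', hc', φ, hφ, hlim⟩ := (base_compact h).tendsto_subseq hx'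
      refine ⟨cone_closed.mem_of_tendsto hxc (Eventually.of_forall hx1), c', hc', fun z => ?_⟩
      have h1 : Tendsto (fun n => F (B (T z) (T z) + x' (φ n))) atTop
          (𝓝 (F (B (T z) (T z) + c'))) :=
        (h.cont.tendsto _).comp (tendsto_const_nhds.add hlim)
      have h2 : Tendsto (fun n => F (B z z + x (φ n))) atTop (𝓝 (F (B z z + c))) :=
        (h.cont.tendsto _).comp (tendsto_const_nhds.add (hxc.comp hφ.tendsto_atTop))
      exact tendsto_nhds_unique h1 (h2.congr fun n => (hr (φ n) z).symm)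
  exact (hS hc).2

/-- radii `r` such that all translates of some point of the base have a representative of norm at
most `r` -/
def Good (B : E →L[ℝ] E →L[ℝ] V) (F : V → ℝ) (r : ℝ) (c : V) : Prop :=
  ∀ T : E ≃ₗᵢ[ℝ] E, ∃ c' ∈ Cone B, Rel B F T c c' ∧ ‖c'‖ ≤ r

lemma exists_invariant [CompleteSpace V] (h : Data B F)
    (hne : ∃ c ∈ Cone B, F c = 1) :
    ∃ g ∈ Base B F, ∀ T : E ≃ₗᵢ[ℝ] E, Rel B F T g g := by
  classical
  let A : Set ℝ := {r | ∃ c ∈ Base B F, Good B F r c}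
  have hA0 : ∀ r ∈ A, 0 ≤ r := by
    rintro r ⟨c, -, hg⟩
    obtain ⟨c', -, -, h2⟩ := hg (LinearIsometryEquiv.refl ℝ E)
    exact (norm_nonneg _).trans h2
  have hAb : BddBelow A := ⟨0, hA0⟩
  have hAn : A.Nonempty := by
    obtain ⟨c, hc, hc1⟩ := hne
    refine ⟨‖B‖ * F c, c, subset_closure (subset_convexHull ℝ _ ⟨hc, hc1⟩), fun T => ?_⟩
    obtain ⟨c', hc', r⟩ := exists_rel h T hc
    refine ⟨c', hc', r, ?_⟩
    rw [← r.F_eq]
    exact norm_le h hc'
  set μ : ℝ := sInf A with hμ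
  let H : Ultrafilter ℕ := hyperfilter ℕ
  have hHle : (H : Filter ℕ) ≤ atTop := by
    rw [← Nat.cofinite_eq_atTop]
    exact hyperfilter_le_cofinite
  have hsmall : Tendsto (fun n : ℕ => 1 / ((n : ℝ) + 1)) (H : Filter ℕ) (𝓝 0) :=
    tendsto_one_div_add_atTop_nhds_zero_nat.mono_left hHle
  -- the infimum is attained
  have hatt : ∃ g ∈ Base B F, Good B F μ g := by
    have hex : ∀ n : ℕ, ∃ c ∈ Base B F, Good B F (μ + 1 / ((n : ℝ) + 1)) c := by
      intro n
      obtain ⟨r, ⟨c, hc, hg⟩, hr⟩ := exists_lt_of_csInf_lt hAn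
        (show sInf A < μ + 1 / ((n : ℝ) + 1) by
          rw [← hμ]; have : (0 : ℝ) < 1 / ((n : ℝ) + 1) := by positivity
          linarith)
      refine ⟨c, hc, fun T => ?_⟩
      obtain ⟨c', h1, h2, h3⟩ := hg T
      exact ⟨c', h1, h2, h3.trans hr.le⟩
    choose c hc hg using hex
    have h2 : ((H.map c : Ultrafilter V) : Filter V) ≤ 𝓟 (Base B F) := by
      rw [le_principal_iff]
      exact (Eventually.of_forall hc : ∀ᶠ n in (H : Filter ℕ), c n ∈ Base B F)
    obtain ⟨g, hg1, hg2⟩ := (base_compact h).ultrafilter_le_nhds _ h2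
    have hcg : Tendsto c (H : Filter ℕ) (𝓝 g) := hg2
    refine ⟨g, hg1, fun T => ?_⟩
    choose c' hc'1 hc'2 hc'3 using fun n => hg n T
    have hFb : ∀ᶠ n in (H : Filter ℕ), F (c' n) ≤ F g + 1 := by
      have := ((h.cont.tendsto g).comp hcg).eventually (gt_mem_nhds (lt_add_one (F g)))
      filter_upwards [this] with n hn
      rw [(hc'2 n).F_eq]
      exact hn.le
    obtain ⟨d, hd, hd2⟩ := ultra_cone h H c' hc'1 hFb
    refine ⟨d, hd, fun x => ?_, ?_⟩
    · have h1 : Tendsto (fun n => F (B (T x) (T x) + c' n)) (H : Filter ℕ)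
          (𝓝 (F (B (T x) (T x) + d))) :=
        (h.cont.tendsto _).comp (tendsto_const_nhds.add hd2)
      have h2 : Tendsto (fun n => F (B x x + c n)) (H : Filter ℕ) (𝓝 (F (B x x + g))) :=
        (h.cont.tendsto _).comp (tendsto_const_nhds.add hcg)
      exact tendsto_nhds_unique h1 (h2.congr fun n => (hc'2 n x).symm)
    · have h1 : Tendsto (fun n : ℕ => μ + 1 / ((n : ℝ) + 1)) (H : Filter ℕ) (𝓝 (μ + 0)) :=
        tendsto_const_nhds.add hsmall
      rw [add_zero] at h1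
      exact le_of_tendsto_of_tendsto' hd2.norm h1 hc'3
  obtain ⟨g, hg1, hg2⟩ := hatt
  refine ⟨g, hg1, fun T0 => ?_⟩
  obtain ⟨g', hg'1, hr0⟩ := base_rel h T0 hg1
  -- `g'` is good as well
  have hg'2 : Good B F μ g' := by
    intro T
    obtain ⟨c', h1, h2, h3⟩ := hg2 (T0.trans T)
    refine ⟨c', h1, fun x => ?_, h3⟩
    have e1 := h2 (T0.symm x)
    have e2 := hr0 (T0.symm x)
    rw [LinearIsometryEquiv.trans_apply, T0.apply_symm_apply] at e1
    rw [T0.apply_symm_apply] at e2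
    rw [e1, e2]
  -- the midpoint
  set m : V := (1 / 2 : ℝ) • g + (1 / 2 : ℝ) • g' with hm
  have hmB : m ∈ Base B F := base_convex hg1 hg'1 (by norm_num) (by norm_num) (by norm_num)
  have hex : ∀ n : ℕ, ∃ T : E ≃ₗᵢ[ℝ] E, ∀ c' ∈ Cone B, Rel B F T m c' →
      μ - 1 / ((n : ℝ) + 1) < ‖c'‖ := by
    intro n
    by_contra hcon
    push Not at hcon
    have : μ - 1 / ((n : ℝ) + 1) ∈ A := by
      refine ⟨m, hmB, fun T => ?_⟩
      obtain ⟨c', h1, h2, h3⟩ := hcon T
      exact ⟨c', h1, h2, h3⟩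
    have h1 := csInf_le hAb this
    have h2 : (0 : ℝ) < 1 / ((n : ℝ) + 1) := by positivity
    rw [← hμ] at h1
    linarith
  choose T hT using hex
  choose c hc1 hc2 hc3 using fun n => hg2 (T n)
  choose c' hc'1 hc'2 hc'3 using fun n => hg'2 (T n)
  have hgC := base_sub h hg1
  have hg'C := base_sub h hg'1
  obtain ⟨d, hd1, hd2⟩ := ultra_cone h H c hc1 (M := F g)
    (Eventually.of_forall fun n => ((hc2 n).F_eq).le)
  obtain ⟨d', hd'1, hd'2⟩ := ultra_cone h H c' hc'1 (M := F g')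
    (Eventually.of_forall fun n => ((hc'2 n).F_eq).le)
  have hn1 : ‖d‖ ≤ μ := le_of_tendsto' hd2.norm hc3
  have hn2 : ‖d'‖ ≤ μ := le_of_tendsto' hd'2.norm hc'3
  have hn3 : μ ≤ ‖(1 / 2 : ℝ) • d + (1 / 2 : ℝ) • d'‖ := by
    have h1 : Tendsto (fun n => ‖(1 / 2 : ℝ) • c n + (1 / 2 : ℝ) • c' n‖) (H : Filter ℕ)
        (𝓝 ‖(1 / 2 : ℝ) • d + (1 / 2 : ℝ) • d'‖) :=
      ((hd2.const_smul _).add (hd'2.const_smul _)).norm
    have h2 : Tendsto (fun n : ℕ => μ - 1 / ((n : ℝ) + 1)) (H : Filter ℕ) (𝓝 (μ - 0)) :=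
      tendsto_const_nhds.sub hsmall
    rw [sub_zero] at h2
    refine le_of_tendsto_of_tendsto' h2 h1 fun n => ?_
    refine (hT n _ ?_ ?_).le
    · exact cone_add h (cone_smul (hc1 n) (by norm_num)) (cone_smul (hc'1 n) (by norm_num))
    · exact rel_add h (cone_smul hgC (by norm_num)) (cone_smul (hc'1 n) (by norm_num))
        (rel_smul h hgC (hc1 n) (hc2 n) (by norm_num))
        (rel_smul h hg'C (hc'1 n) (hc'2 n) (by norm_num))
  have hdd : d = d' := by
    have hpar := parallelogram_law_with_norm ℝ d d'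
    have h1 : ‖(1 / 2 : ℝ) • d + (1 / 2 : ℝ) • d'‖ = 1 / 2 * ‖d + d'‖ := by
      rw [← smul_add, norm_smul]; norm_num
    rw [h1] at hn3
    have h2 : ‖d - d'‖ * ‖d - d'‖ ≤ 0 := by
      nlinarith [norm_nonneg d, norm_nonneg d', norm_nonneg (d + d')]
    have h3 : ‖d - d'‖ = 0 := by nlinarith [norm_nonneg (d - d')]
    exact sub_eq_zero.1 (norm_eq_zero.1 h3)
  -- hence `g` and `g'` are equivalent
  have heq : ∀ x, F (B x x + g) = F (B x x + g') := by
    intro x
    have hb : ∀ᶠ n in (H : Filter ℕ), ‖T n x‖ ≤ ‖x‖ :=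
      Eventually.of_forall fun n => ((T n).norm_map x).le
    obtain ⟨a, ha⟩ := ultra_lim h H (fun n => T n x) (fun n => T n x) hb hb
    have h1 : Tendsto (fun n => F (B (T n x) (T n x) + c n)) (H : Filter ℕ) (𝓝 (F (a + d))) :=
      (h.cont.tendsto _).comp (ha.add hd2)
    have h2 : Tendsto (fun n => F (B (T n x) (T n x) + c' n)) (H : Filter ℕ) (𝓝 (F (a + d'))) :=
      (h.cont.tendsto _).comp (ha.add hd'2)
    have h3 : F (B x x + g) = F (a + d) :=
      tendsto_nhds_unique (tendsto_const_nhds.congr fun n => (hc2 n x).symm) h1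
    have h4 : F (B x x + g') = F (a + d') :=
      tendsto_nhds_unique (tendsto_const_nhds.congr fun n => (hc'2 n x).symm) h2
    rw [h3, h4, hdd]
  intro x
  rw [heq (T0 x)]
  exact hr0 x

end Pool.TH578.Quad
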