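import Pool.Agent.TH578.Quad.Fix

/-!
# Pythagoras for free vectors and the parallelogram law
-/

set_option autoImplicit false
set_option linter.unusedSectionVars false

namespace Pool.TH578.Quad

open Filter Topology

variable {E : Type*} [NormedAddCommGroup E] [NormedSpace ℝ E]
  {V : Type*} [NormedAddCommGroup V] [InnerProductSpace ℝ V]

variable {B : E →L[ℝ] E →L[ℝ] V} {F : V → ℝ}

/-- in infinite dimension there are free values -/
lemma exists_cone (h : Data B F) (hinf : ¬ FiniteDimensional ℝ E) : ∃ c ∈ Cone B, F c = 1 := by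
  classical
  have hex : ∀ Φ : Finset (StrongDual ℝ E), ∃ y : E, ‖y‖ = 1 ∧ ∀ f ∈ Φ, f y = 0 := by
    intro Φ
    let L : E →ₗ[ℝ] (Φ → ℝ) := LinearMap.pi fun f => (f : StrongDual ℝ E).toLinearMap
    have hL : ¬ Function.Injective L := fun hL => hinf (FiniteDimensional.of_injective L hL)
    rw [← LinearMap.ker_eq_bot, Submodule.eq_bot_iff] at hL
    push Not at hL
    obtain ⟨y, hy, hy0⟩ := hL
    have hy1 : ∀ f ∈ Φ, f y = 0 := by
      intro f hf
      have := congrFun (LinearMap.mem_ker.1 hy) ⟨f, hf⟩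
      simpa [L] using this
    refine ⟨‖y‖⁻¹ • y, ?_, fun f hf => ?_⟩
    · rw [norm_smul, norm_inv, norm_norm, inv_mul_cancel₀ (norm_ne_zero_iff.2 hy0)]
    · rw [map_smul, hy1 f hf, smul_zero]
  choose y hy1 hy2 using hex
  let u : Ultrafilter (Finset (StrongDual ℝ E)) := Ultrafilter.of atTop
  have hu : (u : Filter (Finset (StrongDual ℝ E))) ≤ atTop := Ultrafilter.of_le _
  obtain ⟨c, hc⟩ := ultra_lim h u y y (R := 1) (Eventually.of_forall fun Φ => (hy1 Φ).le)
    (Eventually.of_forall fun Φ => (hy1 Φ).le)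
  have t : Ty B (u : Filter (Finset (StrongDual ℝ E))) y c := by
    refine ⟨fun f => ?_, hc⟩
    refine Tendsto.congr' ?_ tendsto_const_nhds
    have : ∀ᶠ Φ : Finset (StrongDual ℝ E) in atTop, (0 : ℝ) = f (y Φ) := by
      filter_upwards [eventually_ge_atTop ({f} : Finset (StrongDual ℝ E))] with Φ hΦ
      exact (hy2 Φ f (hΦ (Finset.mem_singleton_self f))).symm
    exact this.filter_mono hu
  refine ⟨c, t.mem_cone, ?_⟩
  have h1 := t.normSq h
  have h2 : Tendsto (fun Φ => ‖y Φ‖ ^ 2) (u : Filter (Finset (StrongDual ℝ E))) (𝓝 1) := by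
    refine Tendsto.congr (fun Φ => ?_) tendsto_const_nhds
    rw [hy1 Φ]; norm_num
  exact tendsto_nhds_unique h1 h2

/-- pointedness of the base -/
lemma zero_not_base [CompleteSpace V] (h : Data B F) (hne : ∃ c ∈ Cone B, F c = 1) :
    (0 : V) ∉ Base B F := by
  classical
  set C1 : Set V := {c | c ∈ Cone B ∧ F c = 1} with hC1
  have hne0 : ∀ c ∈ C1, c ≠ 0 := by
    rintro c ⟨hc, hc1⟩ rfl
    rw [F_zero h] at hc1
    norm_num at hc1
  have hC1c : IsCompact C1 := by
    refine (compact_cone h 1).of_isClosed_subset ?_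
      (show C1 ⊆ {c | c ∈ Cone B ∧ F c ≤ 1} from fun c hc => ⟨hc.1, hc.2.le⟩)
    exact cone_closed.inter (isClosed_eq h.cont continuous_const)
  have hC1B : C1 ⊆ Base B F := fun c hc => subset_closure (subset_convexHull ℝ _ hc)
  let P : Set V → Prop := fun K => IsCompact K ∧ Convex ℝ K ∧ K ⊆ Cone B ∧ (0 : V) ∉ K ∧ K.Nonempty
  have hjoin : ∀ K L : Set V, P K → P L → ∃ M, P M ∧ K ⊆ M ∧ L ⊆ M := by
    rintro K L ⟨hK1, hK2, hK3, hK4, hK5⟩ ⟨hL1, hL2, hL3, hL4, hL5⟩
    refine ⟨convexJoin ℝ K L, ⟨?_, hK2.convexJoin hL2, ?_, ?_, ?_⟩, ?_, ?_⟩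
    · have : convexJoin ℝ K L = (fun p : ℝ × V × V => (1 - p.1) • p.2.1 + p.1 • p.2.2) ''
          (Set.Icc (0 : ℝ) 1 ×ˢ (K ×ˢ L)) := by
        ext x
        rw [mem_convexJoin]
        constructor
        · rintro ⟨a, ha, b, hb, hx⟩
          rw [segment_eq_image] at hx
          obtain ⟨t, ht, rfl⟩ := hx
          exact ⟨(t, a, b), ⟨ht, ha, hb⟩, rfl⟩
        · rintro ⟨⟨t, a, b⟩, ⟨ht, ha, hb⟩, rfl⟩
          refine ⟨a, ha, b, hb, ?_⟩
          rw [segment_eq_image]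
          exact ⟨t, ht, rfl⟩
      rw [this]
      refine (isCompact_Icc.prod (hK1.prod hL1)).image ?_
      fun_prop
    · intro x hx
      rw [mem_convexJoin] at hx
      obtain ⟨a, ha, b, hb, hx⟩ := hx
      exact (cone_convex h).segment_subset (hK3 ha) (hL3 hb) hx
    · intro hx
      rw [mem_convexJoin] at hx
      obtain ⟨a, ha, b, hb, s, t, hs, ht, hst, hx⟩ := hx
      rcases hs.eq_or_lt with h0 | h0
      · have : t = 1 := by linarith
        rw [← h0, this, zero_smul, zero_add, one_smul] at hx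
        exact hL4 (hx ▸ hb)
      · have h1 : s • a = 0 := by
          refine pointed h (cone_smul (hK3 ha) hs) ?_
          have : -(s • a) = t • b := by
            rw [neg_eq_iff_add_eq_zero]; exact hx
          rw [this]
          exact cone_smul (hL3 hb) ht
        rcases smul_eq_zero.1 h1 with h2 | h2
        · exact h0.ne' h2
        · exact hK4 (h2 ▸ ha)
    · obtain ⟨a, ha⟩ := hK5
      exact ⟨a, subset_convexJoin_left hL5 ha⟩
    · exact subset_convexJoin_left hL5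
    · exact subset_convexJoin_right hK5
  -- finite cover of `C1` by small balls
  obtain ⟨t, ht, hcov⟩ := hC1c.elim_nhds_subcover (fun c => Metric.ball c (‖c‖ / 2))
    (fun c hc => Metric.ball_mem_nhds c (by
      have := norm_pos_iff.2 (hne0 c hc); positivity))
  have hPi : ∀ c ∈ C1, P (Metric.closedBall c (‖c‖ / 2) ∩ Base B F) := by
    intro c hc
    refine ⟨(base_compact h).inter_left Metric.isClosed_closedBall, (convex_closedBall _ _).inter
      base_convex, fun x hx => base_sub h hx.2, fun hx => ?_, ⟨c, ?_, hC1B hc⟩⟩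
    · have h1 := hx.1
      rw [Metric.mem_closedBall, dist_zero_left] at h1
      have := norm_pos_iff.2 (hne0 c hc)
      linarith
    · exact Metric.mem_closedBall_self (by positivity)
  have hfin : ∀ s : Finset V, (∀ c ∈ s, c ∈ C1) → ∃ K, P K ∧
      ∀ c ∈ s, Metric.closedBall c (‖c‖ / 2) ∩ Base B F ⊆ K := by
    intro s
    induction s using Finset.induction_on with
    | empty =>
      intro _
      obtain ⟨c, hc⟩ := hne
      refine ⟨{c}, ⟨isCompact_singleton, convex_singleton c, ?_, ?_, ⟨c, rfl⟩⟩, by simp⟩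
      · rintro x rfl; exact hc.1
      · intro hx; exact hne0 c hc (Set.mem_singleton_iff.1 hx).symm
    | insert a s ha ih =>
      intro hs
      obtain ⟨K, hK, hK2⟩ := ih fun c hc => hs c (Finset.mem_insert_of_mem hc)
      obtain ⟨M, hM, hM1, hM2⟩ := hjoin _ _ hK (hPi a (hs a (Finset.mem_insert_self a s)))
      refine ⟨M, hM, fun c hc => ?_⟩
      rcases Finset.mem_insert.1 hc with rfl | hc
      · exact hM2
      · exact (hK2 c hc).trans hM1
  obtain ⟨K, hK, hK2⟩ := hfin t ht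
  have hsub : Base B F ⊆ K := by
    refine closure_minimal (convexHull_min ?_ hK.2.1) hK.1.isClosed
    intro c hc
    obtain ⟨a, ha, hca⟩ := Set.mem_iUnion₂.1 (hcov hc)
    exact hK2 a ha ⟨Metric.ball_subset_closedBall hca, hC1B hc⟩
  exact fun h0 => hK.2.2.2.1 (hsub h0)

/-- an invariant free value of norm one -/
lemma exists_g [CompleteSpace V] (h : Data B F) (hinf : ¬ FiniteDimensional ℝ E) :
    ∃ g ∈ Cone B, F g = 1 ∧ ∀ T : E ≃ₗᵢ[ℝ] E, Rel B F T g g := by
  have hne := exists_cone h hinf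
  obtain ⟨g, hg, hinv⟩ := exists_invariant h hne
  have hgC := base_sub h hg
  have hg0 : g ≠ 0 := fun h0 => zero_not_base h hne (h0 ▸ hg)
  have hF : 0 < F g := lt_of_le_of_ne (F_nonneg h hgC) fun h0 => hg0 (eq_zero_of_F h hgC h0.symm)
  refine ⟨(F g)⁻¹ • g, cone_smul hgC (inv_nonneg.2 hF.le), ?_, fun T => ?_⟩
  · rw [F_smul h hgC (inv_nonneg.2 hF.le), inv_mul_cancel₀ hF.ne']
  · exact rel_smul h hgC hgC (hinv T) (inv_nonneg.2 hF.le)

/-- almost transitivity -/
def AT (E : Type*) [NormedAddCommGroup E] [NormedSpace ℝ E] : Prop :=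
  ∀ x y : E, ‖x‖ = 1 → ‖y‖ = 1 → ∀ ε : ℝ, 0 < ε → ∃ T : E ≃ₗᵢ[ℝ] E, ‖T x - y‖ < ε

lemma AT.scaled (hat : AT E) {x y : E} (hxy : ‖x‖ = ‖y‖) {ε : ℝ} (hε : 0 < ε) :
    ∃ T : E ≃ₗᵢ[ℝ] E, ‖T x - y‖ < ε := by
  rcases eq_or_ne (‖y‖) 0 with h0 | h0
  · refine ⟨LinearIsometryEquiv.refl ℝ E, ?_⟩
    rw [norm_eq_zero.1 h0, norm_eq_zero.1 (hxy.trans h0)]
    simpa using hε
  · have hy : 0 < ‖y‖ := lt_of_le_of_ne (norm_nonneg _) h0.symm
    obtain ⟨T, hT⟩ := hat (‖y‖⁻¹ • x) (‖y‖⁻¹ • y)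
      (by rw [norm_smul, norm_inv, norm_norm, hxy, inv_mul_cancel₀ h0])
      (by rw [norm_smul, norm_inv, norm_norm, inv_mul_cancel₀ h0]) (‖y‖⁻¹ * ε) (by positivity)
    refine ⟨T, ?_⟩
    rw [map_smul, ← smul_sub, norm_smul, norm_inv, norm_norm] at hT
    exact lt_of_mul_lt_mul_left hT (inv_nonneg.2 hy.le)

/-- rescaling a free net to norm `r` -/
lemma rescale (h : Data B F) {ι : Type*} {u : Filter ι} {y : ι → E} {g : V} (t : Ty B u y g)
    (hg : F g = 1) (r : ℝ) :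
    Tendsto (fun i => B ((r / ‖y i‖) • y i) ((r / ‖y i‖) • y i)) u (𝓝 ((r ^ 2) • g)) := by
  have h1 := t.normSq h
  rw [hg] at h1
  have h2 : Tendsto (fun i => (r ^ 2 / ‖y i‖ ^ 2) • B (y i) (y i)) u (𝓝 ((r ^ 2 / 1) • g)) :=
    (tendsto_const_nhds.div h1 one_ne_zero).smul t.quad
  rw [div_one] at h2
  refine h2.congr fun i => ?_
  rw [quad_smul, div_pow]

lemma ev_ne (h : Data B F) {ι : Type*} {u : Filter ι} {y : ι → E} {g : V} (t : Ty B u y g)
    (hg : F g = 1) : ∀ᶠ i in u, y i ≠ 0 := by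
  have h1 := t.normSq h
  rw [hg] at h1
  filter_upwards [h1.eventually (lt_mem_nhds (show (0 : ℝ) < 1 by norm_num))] with i hi h0
  rw [h0] at hi
  simp at hi

lemma norm_rescale {y : E} (hy : y ≠ 0) {r : ℝ} (hr : 0 ≤ r) : ‖(r / ‖y‖) • y‖ = r := by
  have hn : 0 < ‖y‖ := norm_pos_iff.2 hy
  rw [norm_smul, Real.norm_eq_abs, abs_of_nonneg (by positivity)]
  field_simp

/-- the invariant free value is orthogonal to everything -/
lemma pyth_g (h : Data B F) (hat : AT E) {g : V} (hgC : g ∈ Cone B) (hg : F g = 1)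
    (hinv : ∀ T : E ≃ₗᵢ[ℝ] E, Rel B F T g g) (x : E) : F (B x x + g) = ‖x‖ ^ 2 + 1 := by
  obtain ⟨u, hu⟩ := hgC
  have hcont : Continuous fun z : E => F (B z z + g) :=
    h.cont.comp (((B.isBoundedBilinearMap.continuous.comp (continuous_id.prodMk continuous_id))).add
      continuous_const)
  have hlim : Tendsto (fun y => F (B ((‖x‖ / ‖y‖) • y) ((‖x‖ / ‖y‖) • y) + g)) (u : Filter E)
      (𝓝 (‖x‖ ^ 2 + 1)) := by
    have h1 := (h.cont.tendsto _).comp ((rescale h hu hg ‖x‖).add (tendsto_const_nhds (x := g)))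
    have h2 : F ((‖x‖ ^ 2) • g + g) = ‖x‖ ^ 2 + 1 := by
      have : (‖x‖ ^ 2) • g + g = (‖x‖ ^ 2 + 1) • g := by rw [add_smul, one_smul]
      rw [this, F_smul h ⟨u, hu⟩ (by positivity), hg, mul_one]
    rw [h2] at h1
    exact h1
  have key : ∀ δ : ℝ, 0 < δ → |F (B x x + g) - (‖x‖ ^ 2 + 1)| ≤ δ := by
    intro δ hδ
    obtain ⟨ε, hε, hc⟩ := Metric.continuousAt_iff.1 (hcont.continuousAt (x := x)) δ hδ
    have hev : ∀ᶠ y in (u : Filter E),
        |F (B x x + g) - F (B ((‖x‖ / ‖y‖) • y) ((‖x‖ / ‖y‖) • y) + g)| ≤ δ := by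
      filter_upwards [ev_ne h hu hg] with y hy
      obtain ⟨T, hT⟩ := hat.scaled (norm_rescale hy (norm_nonneg x)) hε
      rw [← hinv T ((‖x‖ / ‖y‖) • y)]
      have := hc (show dist (T ((‖x‖ / ‖y‖) • y)) x < ε by rw [dist_eq_norm]; exact hT)
      rw [dist_comm, Real.dist_eq] at this
      exact this.le
    exact le_of_tendsto ((tendsto_const_nhds.sub hlim).abs) hev
  have h0 : |F (B x x + g) - (‖x‖ ^ 2 + 1)| ≤ 0 := le_of_forall_pos_le_add fun δ hδ => by
    rw [zero_add]; exact key δ hδ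
  exact sub_eq_zero.1 (abs_nonpos_iff.1 h0)

lemma F_add_g (h : Data B F) (hat : AT E) {g : V} (hgC : g ∈ Cone B) (hg : F g = 1)
    (hinv : ∀ T : E ≃ₗᵢ[ℝ] E, Rel B F T g g) {c : V} (hc : c ∈ Cone B) {s : ℝ} (hs : 0 ≤ s) :
    F (s • g + c) = s + F c := by
  have h1 : ∀ c ∈ Cone B, F (c + g) = F c + 1 := by
    rintro c ⟨u, hu⟩
    have h2 : Tendsto (fun y => F (B y y + g)) (u : Filter E) (𝓝 (F (c + g))) :=
      (h.cont.tendsto _).comp (hu.quad.add tendsto_const_nhds)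
    refine tendsto_nhds_unique h2 (((hu.normSq h).add (tendsto_const_nhds (x := (1:ℝ)))).congr
      fun y => (pyth_g h hat hgC hg hinv y).symm)
  rcases hs.eq_or_lt with h0 | h0
  · rw [← h0]; simp
  · have h2 : s • g + c = s • (s⁻¹ • c + g) := by
      rw [smul_add, smul_smul, mul_inv_cancel₀ h0.ne', one_smul, add_comm]
    have hsc : s⁻¹ • c ∈ Cone B := cone_smul hc (inv_nonneg.2 h0.le)
    rw [h2, F_smul h (cone_add h hsc hgC) h0.le, h1 _ hsc, F_smul h hc (inv_nonneg.2 h0.le)]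
    field_simp
    ring

/-- Pythagoras for arbitrary free values -/
lemma pyth (h : Data B F) (hat : AT E) {g : V} (hgC : g ∈ Cone B) (hg : F g = 1)
    (hinv : ∀ T : E ≃ₗᵢ[ℝ] E, Rel B F T g g) (x : E) {w : V} (hw : w ∈ Cone B) :
    F (B x x + w) = ‖x‖ ^ 2 + F w := by
  obtain ⟨u, hu⟩ := hgC
  have hgC : g ∈ Cone B := ⟨u, hu⟩
  have hcont : Continuous fun z : E => F (B z z + w) :=
    h.cont.comp (((B.isBoundedBilinearMap.continuous.comp (continuous_id.prodMk continuous_id))).add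
      continuous_const)
  have key : ∀ δ : ℝ, 0 < δ → |F (B x x + w) - (‖x‖ ^ 2 + F w)| ≤ δ := by
    intro δ hδ
    obtain ⟨ε, hε, hc⟩ := Metric.continuousAt_iff.1 (hcont.continuousAt (x := x)) δ hδ
    have hex : ∀ y : E, ∃ w' ∈ Cone B, F w' = F w ∧
        (y ≠ 0 → |F (B x x + w) - F (B ((‖x‖ / ‖y‖) • y) ((‖x‖ / ‖y‖) • y) + w')| ≤ δ) := by
      intro y
      by_cases hy : y = 0
      · exact ⟨w, hw, rfl, fun h => absurd hy h⟩
      · obtain ⟨T, hT⟩ := hat.scaled (norm_rescale hy (norm_nonneg x)) hε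
        obtain ⟨w', hw', r⟩ := exists_rel h T.symm hw
        refine ⟨w', hw', r.F_eq, fun _ => ?_⟩
        have e1 := r (T ((‖x‖ / ‖y‖) • y))
        rw [T.symm_apply_apply] at e1
        rw [e1]
        have := hc (show dist (T ((‖x‖ / ‖y‖) • y)) x < ε by rw [dist_eq_norm]; exact hT)
        rw [dist_comm, Real.dist_eq] at this
        exact this.le
    choose w' hw'1 hw'2 hw'3 using hex
    obtain ⟨d, hd1, hd2⟩ := ultra_cone h u w' hw'1 (M := F w)
      (Eventually.of_forall fun y => (hw'2 y).le)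
    have hFd : F d = F w := by
      have h1 : Tendsto (fun y => F (w' y)) (u : Filter E) (𝓝 (F d)) := (h.cont.tendsto _).comp hd2
      exact tendsto_nhds_unique h1 (tendsto_const_nhds.congr fun y => (hw'2 y).symm)
    have hlim : Tendsto (fun y => F (B ((‖x‖ / ‖y‖) • y) ((‖x‖ / ‖y‖) • y) + w' y)) (u : Filter E)
        (𝓝 (‖x‖ ^ 2 + F w)) := by
      have h1 := (h.cont.tendsto _).comp ((rescale h hu hg ‖x‖).add hd2)
      rw [F_add_g h hat hgC hg hinv hd1 (by positivity), hFd] at h1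
      exact h1
    refine le_of_tendsto ((tendsto_const_nhds.sub hlim).abs) ?_
    filter_upwards [ev_ne h hu hg] with y hy
    exact hw'3 y hy
  have h0 : |F (B x x + w) - (‖x‖ ^ 2 + F w)| ≤ 0 := le_of_forall_pos_le_add fun δ hδ => by
    rw [zero_add]; exact key δ hδ
  exact sub_eq_zero.1 (abs_nonpos_iff.1 h0)

end Pool.TH578.Quad
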