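import Pool.Agent.TH578.Quad.Final

/-!
# From quadratic forms to the vector-valued quadratic map
-/

set_option autoImplicit false
set_option linter.unusedSectionVars false

namespace Pool.TH578.Quad

open Filter Topology

variable {E : Type*} [NormedAddCommGroup E] [NormedSpace ℝ E]
  {V : Type*} [NormedAddCommGroup V] [InnerProductSpace ℝ V]

/-- weights -/
noncomputable def om (β : ℕ → (E →L[ℝ] E →L[ℝ] ℝ)) (n : ℕ) : ℝ := (1 / 2 : ℝ) ^ n / (1 + ‖β n‖)

/-- weighted symmetrized form -/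
noncomputable def wt (β : ℕ → (E →L[ℝ] E →L[ℝ] ℝ)) (n : ℕ) (x y : E) : ℝ :=
  om β n * ((β n x y + β n y x) / 2)

variable (β : ℕ → (E →L[ℝ] E →L[ℝ] ℝ))

lemma om_pos (n : ℕ) : 0 < om β n := by
  have h0 : (0 : ℝ) ≤ ‖β n‖ := norm_nonneg (β n)
  rw [om]; positivity

lemma wt_bound (n : ℕ) (x y : E) : |wt β n x y| ≤ (1 / 2 : ℝ) ^ n * (‖x‖ * ‖y‖) := by
  have h0 : (0 : ℝ) ≤ ‖β n‖ := norm_nonneg (β n)
  have h1 : |β n x y| ≤ ‖β n‖ * ‖x‖ * ‖y‖ := (β n).le_opNorm₂ x y
  have h2 : |β n y x| ≤ ‖β n‖ * ‖y‖ * ‖x‖ := (β n).le_opNorm₂ y x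
  have h3 : |(β n x y + β n y x) / 2| ≤ ‖β n‖ * (‖x‖ * ‖y‖) := by
    rw [abs_div, abs_two, div_le_iff₀ (by norm_num)]
    calc |β n x y + β n y x| ≤ |β n x y| + |β n y x| := abs_add_le _ _
      _ ≤ ‖β n‖ * ‖x‖ * ‖y‖ + ‖β n‖ * ‖y‖ * ‖x‖ := add_le_add h1 h2
      _ = ‖β n‖ * (‖x‖ * ‖y‖) * 2 := by ring
  rw [wt, abs_mul, abs_of_pos (om_pos β n)]
  calc om β n * |(β n x y + β n y x) / 2| ≤ om β n * (‖β n‖ * (‖x‖ * ‖y‖)) := by
        have := (om_pos β n).le
        gcongr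
    _ = (1 / 2 : ℝ) ^ n * (‖x‖ * ‖y‖) * (‖β n‖ / (1 + ‖β n‖)) := by rw [om]; ring
    _ ≤ (1 / 2 : ℝ) ^ n * (‖x‖ * ‖y‖) * 1 := by
        have h4 : ‖β n‖ / (1 + ‖β n‖) ≤ 1 := by
          rw [div_le_one (by positivity)]; linarith
        have h5 : 0 ≤ (1 / 2 : ℝ) ^ n * (‖x‖ * ‖y‖) := by positivity
        exact mul_le_mul_of_nonneg_left h4 h5
    _ = (1 / 2 : ℝ) ^ n * (‖x‖ * ‖y‖) := mul_one _

lemma wt_symm (n : ℕ) (x y : E) : wt β n x y = wt β n y x := by
  simp only [wt]; ring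

lemma wt_self (n : ℕ) (x : E) : wt β n x x = om β n * β n x x := by
  simp only [wt]; ring

lemma wt_add (n : ℕ) (x x' y : E) : wt β n (x + x') y = wt β n x y + wt β n x' y := by
  simp only [wt, map_add, add_apply]; ring

lemma wt_smul (n : ℕ) (t : ℝ) (x y : E) : wt β n (t • x) y = t * wt β n x y := by
  simp only [wt, map_smul, smul_apply, smul_eq_mul]; ring

lemma geo : Summable fun n : ℕ => (1 / 2 : ℝ) ^ n :=
  summable_geometric_of_lt_one (by norm_num) (by norm_num)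

variable [CompleteSpace V] {e : ℕ → V}

lemma term_bound (he : Orthonormal ℝ e) (n : ℕ) (x y : E) :
    ‖wt β n x y • e n‖ ≤ (1 / 2 : ℝ) ^ n * (‖x‖ * ‖y‖) := by
  rw [norm_smul, he.1 n, mul_one]
  exact wt_bound β n x y

lemma bil_summable (he : Orthonormal ℝ e) (x y : E) : Summable fun n => wt β n x y • e n :=
  Summable.of_norm_bounded (geo.mul_right (‖x‖ * ‖y‖)) (fun n => term_bound β he n x y)

lemma bil_norm (he : Orthonormal ℝ e) (x y : E) : ‖∑' n, wt β n x y • e n‖ ≤ 2 * (‖x‖ * ‖y‖) := by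
  have h1 : HasSum (fun n : ℕ => (1 / 2 : ℝ) ^ n * (‖x‖ * ‖y‖)) (2 * (‖x‖ * ‖y‖)) :=
    hasSum_geometric_two.mul_right _
  exact tsum_of_norm_bounded h1 (fun n => term_bound β he n x y)

lemma tsum_add_left (he : Orthonormal ℝ e) (x x' y : E) :
    ∑' n, wt β n (x + x') y • e n = (∑' n, wt β n x y • e n) + ∑' n, wt β n x' y • e n := by
  rw [← (bil_summable β he x y).tsum_add (bil_summable β he x' y)]
  refine tsum_congr fun n => ?_
  rw [wt_add, add_smul]

lemma tsum_smul_left (x y : E) (t : ℝ) :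
    ∑' n, wt β n (t • x) y • e n = t • ∑' n, wt β n x y • e n := by
  rw [← tsum_const_smul'']
  refine tsum_congr fun n => ?_
  rw [wt_smul, mul_smul]

lemma tsum_symm (x y : E) :
    ∑' n, wt β n x y • e n = ∑' n, wt β n y x • e n :=
  tsum_congr fun n => by rw [wt_symm]

/-- the vector-valued bilinear map -/
noncomputable def bil (he : Orthonormal ℝ e) : E →L[ℝ] E →L[ℝ] V :=
  LinearMap.mkContinuous₂
    (LinearMap.mk₂ ℝ (fun x y : E => ∑' n, wt β n x y • e n)
      (fun x x' y => tsum_add_left β he x x' y)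
      (fun t x y => tsum_smul_left β x y t)
      (fun x y y' => by
        rw [tsum_symm β x (y + y'), tsum_symm β x y, tsum_symm β x y']
        exact tsum_add_left β he y y' x)
      (fun t x y => by
        rw [tsum_symm β x (t • y), tsum_symm β x y]
        exact tsum_smul_left β y x t))
    2 (fun x y => by
      rw [mul_assoc]
      exact bil_norm β he x y)

lemma bil_apply (he : Orthonormal ℝ e) (x y : E) : bil β he x y = ∑' n, wt β n x y • e n := rfl

lemma bil_hasSum (he : Orthonormal ℝ e) (x y : E) :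
    HasSum (fun n => wt β n x y • e n) (bil β he x y) := by
  rw [bil_apply]
  exact (bil_summable β he x y).hasSum

lemma bil_symm (he : Orthonormal ℝ e) (x y : E) : bil β he x y = bil β he y x := by
  rw [bil_apply, bil_apply, tsum_symm]

lemma bil_inner (he : Orthonormal ℝ e) (x y : E) (n : ℕ) :
    inner ℝ (e n) (bil β he x y) = wt β n x y := by
  have h1 : HasSum (fun k => inner ℝ (e n) (wt β k x y • e k)) (inner ℝ (e n) (bil β he x y)) :=
    (innerSL ℝ (e n)).hasSum (bil_hasSum β he x y)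
  have h2 : HasSum (fun k => inner ℝ (e n) (wt β k x y • e k)) (wt β n x y) := by
    have h3 := hasSum_single (f := fun k => inner ℝ (e n) (wt β k x y • e k)) n
      (fun k hk => by
        show inner ℝ (e n) (wt β k x y • e k) = 0
        rw [inner_smul_right, he.2 (Ne.symm hk), mul_zero])
    have h4 : inner ℝ (e n) (wt β n x y • e n) = wt β n x y := by
      rw [inner_smul_right, real_inner_self_eq_norm_sq, he.1 n]
      ring
    simp only [h4] at h3
    exact h3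
  exact h1.unique h2

/-- the compact cube -/
def cube (e : ℕ → V) : Set V :=
  (fun a : ℕ → ℝ => ∑' n, a n • e n) ''
    (Set.univ.pi fun n => Set.Icc (-(1 / 2 : ℝ) ^ n) ((1 / 2 : ℝ) ^ n))

lemma cube_compact (he : Orthonormal ℝ e) : IsCompact (cube e) := by
  refine (isCompact_univ_pi fun n => isCompact_Icc).image_of_continuousOn ?_
  refine continuousOn_tsum (u := fun n : ℕ => (1 / 2 : ℝ) ^ n)
    (fun n => ((continuous_apply n).smul continuous_const).continuousOn) geo fun n a ha => ?_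
  rw [norm_smul, he.1 n, mul_one, Real.norm_eq_abs]
  have := ha n (Set.mem_univ n)
  exact abs_le.2 ⟨this.1, this.2⟩

lemma bil_mem_cube (he : Orthonormal ℝ e) {x y : E} (hx : ‖x‖ ≤ 1) (hy : ‖y‖ ≤ 1) :
    bil β he x y ∈ cube e := by
  refine ⟨fun n => wt β n x y, fun n _ => ?_, (bil_apply β he x y).symm⟩
  have h1 : |wt β n x y| ≤ (1 / 2 : ℝ) ^ n := by
    calc |wt β n x y| ≤ (1 / 2 : ℝ) ^ n * (‖x‖ * ‖y‖) := wt_bound β n x y
      _ ≤ (1 / 2 : ℝ) ^ n * (1 * 1) := by gcongr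
      _ = (1 / 2 : ℝ) ^ n := by ring
  exact ⟨(abs_le.1 h1).1, (abs_le.1 h1).2⟩

end Pool.TH578.Quad
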